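import Mathlib

/-!
# Definitions for `MP_7934a7_lc.SmallClasses`

Black-box model of the oblivious symmetric classes: the verifiers compute for free, and the number
of their questions and the lengths of the strings `y`, `z` are bounded.
-/

namespace Pool.Agent.H.MP_7934a7_lc.h84.SC

/-- strings of length `n` -/
abbrev Str (n : ℕ) := Fin n → Bool

/-- languages, and oracles, as characteristic functions -/
abbrev Lang := (n : ℕ) → Str n → Bool

/-- words: strings of all lengths -/
abbrev Word := Σ n : ℕ, Str n

/-- Adaptive algorithms that ask questions from `Q`, get a bit as answer, and output a bit. -/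
inductive Alg (Q : Type) : Type
  | out (b : Bool) : Alg Q
  | ask (q : Q) (next : Bool → Alg Q) : Alg Q

/-- run an algorithm, the answers being given by `f` -/
def Alg.run {Q : Type} (f : Q → Bool) : Alg Q → Bool
  | .out b => b
  | .ask q next => (next (f q)).run f

/-- at most `c` questions on every path -/
def Alg.AtMost {Q : Type} : Alg Q → ℕ → Prop
  | .out _, _ => True
  | .ask _ _, 0 => False
  | .ask _ next, c + 1 => ∀ a, (next a).AtMost c

/-- A verifier: from the input `x` and the strings `y`, `z` it computes, in an arbitrary way, an
adaptive algorithm that asks membership questions to the oracle. -/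
structure Verifier where
  /-- length of the strings `y` and `z` for inputs of length `n` -/
  len : ℕ → ℕ
  /-- bound for the number of questions -/
  cost : ℕ → ℕ
  /-- the computation of the verifier -/
  alg : (n : ℕ) → Str n → Str (len n) → Str (len n) → Alg Word
  alg_cost : ∀ n x y z, (alg n x y z).AtMost (cost n)

/-- the value of the verifier relative to the oracle `O` -/
def Verifier.value (V : Verifier) (O : Lang) (n : ℕ) (x : Str n) (y z : Str (V.len n)) : Bool :=
  (V.alg n x y z).run (fun q => O q.1 q.2)

/-- A verifier that asks the oracle `O` and also a language `B`, in every order, all questions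
being allowed to depend on `x`, `y`, `z` and on the earlier answers. -/
structure Verifier₂ where
  /-- length of the strings `y` and `z` for inputs of length `n` -/
  len : ℕ → ℕ
  /-- bound for the number of questions -/
  cost : ℕ → ℕ
  /-- bound for the length of the questions to `B` -/
  size : ℕ → ℕ
  /-- the computation of the verifier; `inl q` is a question to `O` and `inr q` one to `B` -/
  alg : (n : ℕ) → Str n → Str (len n) → Str (len n) → Alg (Word ⊕ (Σ k : Fin (size n + 1), Str k))
  alg_cost : ∀ n x y z, (alg n x y z).AtMost (cost n)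

/-- the value of such a verifier relative to `O` and `B` -/
def Verifier₂.value (U : Verifier₂) (O B : Lang) (n : ℕ) (x : Str n) (y z : Str (U.len n)) :
    Bool :=
  (U.alg n x y z).run (Sum.elim (fun q => O q.1 q.2) (fun q => B q.1 q.2))

section conditions

variable {n m : ℕ}

/-- the `NO_2` condition: `v x y z` is the value of the verifier, `S` the set of inputs -/
def NO2 (v : Str n → Str m → Str m → Bool) (S : Str n → Bool) : Prop :=
  ∃ z₀, ∀ x, (S x = true → ∃ y, ∀ z, v x y z = true) ∧ (S x = false → ∀ y, v x y z₀ = false)

/-- the `YO_2` condition -/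
def YO2 (v : Str n → Str m → Str m → Bool) (S : Str n → Bool) : Prop :=
  ∃ y₀, ∀ x, (S x = true → ∀ z, v x y₀ z = true) ∧ (S x = false → ∃ z, ∀ y, v x y z = false)

/-- the `O_2` condition -/
def O2 (v : Str n → Str m → Str m → Bool) (S : Str n → Bool) : Prop :=
  ∃ y₀ z₀, ∀ x, (S x = true → ∀ z, v x y₀ z = true) ∧ (S x = false → ∀ y, v x y z₀ = false)

/-- the `S_2` condition -/
def S2 (v : Str n → Str m → Str m → Bool) (S : Str n → Bool) : Prop :=
  ∀ x, (S x = true → ∃ y, ∀ z, v x y z = true) ∧ (S x = false → ∃ z, ∀ y, v x y z = false)

/-- the string `a` forces the right answer for all inputs, for either prover -/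
def Forces (v : Str n → Str m → Str m → Bool) (S : Str n → Bool) (a : Str m) : Prop :=
  ∀ x, (∀ z, v x a z = S x) ∧ (∀ y, v x y a = S x)

end conditions

/-- polynomially bounded -/
def PolyBdd (f : ℕ → ℕ) : Prop := ∃ d : ℕ, ∀ n, f n ≤ (n + 2) ^ d

/-- the verifier has polynomially bounded strings and numbers of questions -/
def Verifier.Poly (V : Verifier) : Prop := PolyBdd V.len ∧ PolyBdd V.cost

/-- the verifier has polynomially bounded strings, numbers of questions and questions to `B` -/
def Verifier₂.Poly (U : Verifier₂) : Prop := PolyBdd U.len ∧ PolyBdd U.cost ∧ PolyBdd U.size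

/-- a family `H k` of sets of functions `{0,1}^k → {0,1}` -/
abbrev Family := (k : ℕ) → Finset (Str k → Bool)

/-- the set `H k` has at most `2^(polynomial in k)` elements -/
def Small (H : Family) : Prop := ∃ s : ℕ → ℕ, PolyBdd s ∧ ∀ k, (H k).card ≤ 2 ^ s k

/-- the word `x w b` of length `5k + 1` -/
def code {k : ℕ} (x : Str k) (w : Str (4 * k)) (b : Bool) : Str (k + 4 * k + 1) :=
  Fin.snoc (α := fun _ => Bool) (Fin.append x w) b

/-- Unique certificates (so `B` is in `UP ∩ coUP` relative to `O`): for every `x` in `{0,1}^k`
there is one `w` in `{0,1}^(4k)` such that, of all words `x w' b` with `w'` in `{0,1}^(4k)` and `b`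
in `{0,1}`, the only one in `O` is `x w B(x)`. -/
def Certified (O B : Lang) : Prop :=
  ∀ (k : ℕ) (x : Str k), ∃ w : Str (4 * k), ∀ (w' : Str (4 * k)) (b : Bool),
    O (k + 4 * k + 1) (code x w' b) = true ↔ w' = w ∧ b = B k x

end Pool.Agent.H.MP_7934a7_lc.h84.SC
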