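import Mathlib
import Pool.Agent.H.MP_7934a7_lc.h84.Defs

/-!
The counting argument for one length: a class with more than `2^poly` functions contains a function
that is not in `O_2` for suitable unique certificates.
-/

namespace Pool.Agent.H.MP_7934a7_lc.h84.SC

/-- the questions asked by a run -/
def Alg.asked {Q : Type} (f : Q → Bool) : Alg Q → List Q
  | .out _ => []
  | .ask q next => q :: (next (f q)).asked f

lemma Alg.asked_length {Q : Type} (f : Q → Bool) (A : Alg Q) :
    ∀ c, A.AtMost c → (A.asked f).length ≤ c := by
  induction A with
  | out b => intro c _; simp [Alg.asked]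
  | ask q next ih =>
    intro c hc
    cases c with
    | zero => exact absurd hc (by simp [Alg.AtMost])
    | succ c =>
      have hc' : ∀ a, (next a).AtMost c := hc
      have h1 := ih (f q) c (hc' _)
      simp only [Alg.asked, List.length_cons]
      omega

lemma Alg.run_congr {Q : Type} {f g : Q → Bool} (A : Alg Q) (h : ∀ q ∈ A.asked f, f q = g q) :
    A.run f = A.run g := by
  induction A with
  | out b => rfl
  | ask q next ih =>
    have h1 : f q = g q := h q (by simp [Alg.asked])
    simp only [Alg.run]
    rw [← h1]
    exact ih (f q) (fun q' hq' => h q' (by simp [Alg.asked, hq']))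

section count

variable {X W Q : Type}

/-- the answer to the question `q` if `κ` is known: `tri q = some (j, w, b)` means that `q` asks
whether `w` is the certificate of `j` for the value `b` -/
def ans [DecidableEq W] (tri : Q → Option (X × W × Bool)) (base : Q → Bool)
    (κ : X → Option (W × Bool)) (q : Q) : Bool :=
  match tri q with
  | none => base q
  | some (j, w, b) =>
    match κ j with
    | none => false
    | some (w', b') => decide (w = w' ∧ b = b')

lemma ans_none [DecidableEq W] {tri : Q → Option (X × W × Bool)} {base : Q → Bool}
    {κ : X → Option (W × Bool)} {q : Q} (h : tri q = none) : ans tri base κ q = base q := by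
  simp only [ans, h]

lemma ans_unknown [DecidableEq W] {tri : Q → Option (X × W × Bool)} {base : Q → Bool}
    {κ : X → Option (W × Bool)} {q : Q} {j : X} {w : W} {b : Bool} (h : tri q = some (j, w, b))
    (hj : κ j = none) : ans tri base κ q = false := by
  simp only [ans, h, hj]

lemma ans_known [DecidableEq W] {tri : Q → Option (X × W × Bool)} {base : Q → Bool}
    {κ : X → Option (W × Bool)} {q : Q} {j : X} {w w' : W} {b b' : Bool}
    (h : tri q = some (j, w, b)) (hj : κ j = some (w', b')) :
    ans tri base κ q = decide (w = w' ∧ b = b') := by
  simp only [ans, h, hj]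

variable [Fintype X] [DecidableEq X] [DecidableEq W]

open Classical in
/-- the states that follow `κ` by one discovery -/
noncomputable def grow (tri : Q → Option (X × W × Bool)) (base : Q → Bool) (T : X → Alg Q)
    (κ : X → Option (W × Bool)) : Finset (X → Option (W × Bool)) :=
  Finset.univ.biUnion fun x : X =>
    ((T x).asked (ans tri base κ)).toFinset.biUnion fun q =>
      match tri q with
      | none => ∅
      | some (j, w, _) =>
        if κ j = none then
          {Function.update κ j (some (w, true)), Function.update κ j (some (w, false))}
        else ∅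

open Classical in
/-- the states that can be reached by at most `i` discoveries -/
noncomputable def reach (tri : Q → Option (X × W × Bool)) (base : Q → Bool) (T : X → Alg Q) :
    ℕ → Finset (X → Option (W × Bool))
  | 0 => {fun _ => none}
  | i + 1 => reach tri base T i ∪ (reach tri base T i).biUnion (grow tri base T)

lemma grow_card (tri : Q → Option (X × W × Bool)) (base : Q → Bool) (T : X → Alg Q) (r : ℕ)
    (hr : ∀ x, (T x).AtMost r) (κ : X → Option (W × Bool)) :
    (grow tri base T κ).card ≤ Fintype.card X * (r * 2) := by
  classical
  unfold grow
  refine Finset.card_biUnion_le_card_mul _ _ _ (fun x _ => ?_)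
  refine (Finset.card_biUnion_le_card_mul _ _ 2 (fun q _ => ?_)).trans ?_
  · rcases h : tri q with _ | ⟨j, w, b⟩
    · simp
    · simp only
      split_ifs
      · exact Finset.card_le_two
      · simp
  · exact Nat.mul_le_mul_right _ ((List.toFinset_card_le _).trans (Alg.asked_length _ _ _ (hr x)))

lemma reach_card (tri : Q → Option (X × W × Bool)) (base : Q → Bool) (T : X → Alg Q) (r : ℕ)
    (hr : ∀ x, (T x).AtMost r) (i : ℕ) :
    (reach tri base T i).card ≤ (1 + Fintype.card X * (r * 2)) ^ i := by
  classical
  induction i with
  | zero => simp [reach]
  | succ i ih =>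
    rw [reach]
    calc _ ≤ (reach tri base T i).card + ((reach tri base T i).biUnion (grow tri base T)).card :=
          Finset.card_union_le _ _
      _ ≤ (reach tri base T i).card + (reach tri base T i).card * (Fintype.card X * (r * 2)) :=
          Nat.add_le_add_left (Finset.card_biUnion_le_card_mul _ _ _
            (fun κ _ => grow_card tri base T r hr κ)) _
      _ = (reach tri base T i).card * (1 + Fintype.card X * (r * 2)) := by ring
      _ ≤ (1 + Fintype.card X * (r * 2)) ^ i * (1 + Fintype.card X * (r * 2)) :=
          Nat.mul_le_mul_right _ ih
      _ = (1 + Fintype.card X * (r * 2)) ^ (i + 1) := by ring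

/-- the known positions of a state -/
def known (κ : X → Option (W × Bool)) : Finset X := Finset.univ.filter (fun j => κ j ≠ none)

variable [Fintype W]

lemma agree_card (κ : X → Option (W × Bool)) :
    (Finset.univ.filter (fun w : X → W => ∀ j p, κ j = some p → p.1 = w j)).card *
      Fintype.card W ^ (known κ).card = Fintype.card W ^ Fintype.card X := by
  classical
  have h1 : Finset.univ.filter (fun w : X → W => ∀ j p, κ j = some p → p.1 = w j)
      = Fintype.piFinset (fun j => if κ j = none then (Finset.univ : Finset W) else
        Finset.univ.filter (fun a => ∀ p, κ j = some p → p.1 = a)) := by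
    ext w
    simp only [Finset.mem_filter, Finset.mem_univ, true_and, Fintype.mem_piFinset]
    refine forall_congr' (fun j => ?_)
    by_cases hj : κ j = none
    · simp [hj]
    · simp [hj]
  have h2 : ∀ j, (if κ j = none then (Finset.univ : Finset W) else
        Finset.univ.filter (fun a => ∀ p, κ j = some p → p.1 = a)).card
      = if κ j = none then Fintype.card W else 1 := by
    intro j
    rcases hj : κ j with _ | p
    · simp
    · simp only [reduceCtorEq, if_false]
      rw [Finset.card_eq_one]
      exact ⟨p.1, by ext a; simp [eq_comm]⟩
  rw [h1, Fintype.card_piFinset]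
  simp only [h2]
  rw [Finset.prod_ite]
  simp only [Finset.prod_const, one_pow, mul_one]
  rw [← pow_add]
  congr 1
  have h3 := Finset.card_filter_add_card_filter_not (s := (Finset.univ : Finset X))
    (fun j => κ j = none)
  rw [Finset.card_univ] at h3
  exact h3

/-- some certificates agree with no state that has `t` known positions -/
lemma exists_hidden {M : Type} [Fintype M] (tri : Q → Option (X × W × Bool)) (base : Q → Bool)
    (T : M → X → Alg Q) (r t : ℕ) (hr : ∀ a x, (T a x).AtMost r)
    (h : Fintype.card M * (1 + Fintype.card X * (r * 2)) ^ t < Fintype.card W ^ t)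
    (hW : 0 < Fintype.card W) :
    ∃ w : X → W, ∀ a, ∀ κ ∈ reach tri base (T a) t, (known κ).card = t →
      ¬ ∀ j p, κ j = some p → p.1 = w j := by
  classical
  by_contra hcon
  push Not at hcon
  have h1 : (Finset.univ : Finset (X → W)) ⊆ (Finset.univ : Finset M).biUnion (fun a =>
      ((reach tri base (T a) t).filter (fun κ => (known κ).card = t)).biUnion (fun κ =>
        Finset.univ.filter (fun w : X → W => ∀ j p, κ j = some p → p.1 = w j))) := by
    intro w _
    obtain ⟨a, κ, hκ, hk, hw⟩ := hcon w
    simp only [Finset.mem_biUnion, Finset.mem_univ, true_and, Finset.mem_filter]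
    exact ⟨a, κ, ⟨hκ, hk⟩, hw⟩
  have h2 := Finset.card_le_card h1
  rw [Finset.card_univ, Fintype.card_fun] at h2
  have h3 : ∀ a : M, (((reach tri base (T a) t).filter (fun κ => (known κ).card = t)).biUnion
      (fun κ => Finset.univ.filter (fun w : X → W => ∀ j p, κ j = some p → p.1 = w j))).card *
        Fintype.card W ^ t ≤
      (1 + Fintype.card X * (r * 2)) ^ t * Fintype.card W ^ Fintype.card X := by
    intro a
    calc _ ≤ (∑ κ ∈ (reach tri base (T a) t).filter (fun κ => (known κ).card = t),
          (Finset.univ.filter (fun w : X → W => ∀ j p, κ j = some p → p.1 = w j)).card) *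
            Fintype.card W ^ t := Nat.mul_le_mul_right _ Finset.card_biUnion_le
      _ = ∑ κ ∈ (reach tri base (T a) t).filter (fun κ => (known κ).card = t),
          Fintype.card W ^ Fintype.card X := by
        rw [Finset.sum_mul]
        refine Finset.sum_congr rfl (fun κ hκ => ?_)
        rw [← agree_card κ, (Finset.mem_filter.mp hκ).2]
      _ = ((reach tri base (T a) t).filter (fun κ => (known κ).card = t)).card *
          Fintype.card W ^ Fintype.card X := by rw [Finset.sum_const, smul_eq_mul]
      _ ≤ _ := Nat.mul_le_mul_right _ ((Finset.card_le_card (Finset.filter_subset _ _)).trans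
          (reach_card tri base (T a) r (hr a) t))
  have h4 : Fintype.card W ^ Fintype.card X * Fintype.card W ^ t ≤
      Fintype.card M * ((1 + Fintype.card X * (r * 2)) ^ t * Fintype.card W ^ Fintype.card X) := by
    calc _ ≤ (∑ a : M, (((reach tri base (T a) t).filter
            (fun κ => (known κ).card = t)).biUnion (fun κ =>
              Finset.univ.filter (fun w : X → W => ∀ j p, κ j = some p → p.1 = w j))).card) *
            Fintype.card W ^ t :=
          Nat.mul_le_mul_right _ (h2.trans Finset.card_biUnion_le)
      _ = ∑ a : M, (((reach tri base (T a) t).filter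
            (fun κ => (known κ).card = t)).biUnion (fun κ =>
              Finset.univ.filter (fun w : X → W => ∀ j p, κ j = some p → p.1 = w j))).card *
            Fintype.card W ^ t := Finset.sum_mul _ _ _
      _ ≤ ∑ _a : M, ((1 + Fintype.card X * (r * 2)) ^ t * Fintype.card W ^ Fintype.card X) :=
          Finset.sum_le_sum (fun a _ => h3 a)
      _ = _ := by simp
  have h5 : 0 < Fintype.card W ^ Fintype.card X := Nat.pow_pos hW
  have h6 := Nat.mul_lt_mul_of_pos_right h h5
  nlinarith

/-- the state in which everything is known -/
def full (w : X → W) (c : X → Bool) : X → Option (W × Bool) := fun j => some (w j, c j)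

omit [Fintype W] in
/-- every function has a reachable state that decides all runs -/
lemma exists_closed (tri : Q → Option (X × W × Bool)) (base : Q → Bool) (T : X → Alg Q) (t : ℕ)
    (w : X → W) (hw : ∀ κ ∈ reach tri base T t, (known κ).card = t →
      ¬ ∀ j p, κ j = some p → p.1 = w j) (c : X → Bool) :
    ∃ κ ∈ reach tri base T t, ∀ x,
      (T x).run (ans tri base κ) = (T x).run (ans tri base (full w c)) := by
  classical
  have key : ∀ i, (∃ κ ∈ reach tri base T i, ∀ x, ∀ q ∈ (T x).asked (ans tri base κ),
        ans tri base κ q = ans tri base (full w c) q) ∨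
      (∃ κ ∈ reach tri base T i, (∀ j p, κ j = some p → p = (w j, c j)) ∧
        (known κ).card = i) := by
    intro i
    induction i with
    | zero =>
      right
      refine ⟨fun _ => none, by simp [reach], fun j p h => absurd h (by simp), ?_⟩
      simp [known]
    | succ i ih =>
      rcases ih with ⟨κ, hκ, h⟩ | ⟨κ, hκ, hc, hk⟩
      · left
        exact ⟨κ, by rw [reach]; exact Finset.mem_union_left _ hκ, h⟩
      · by_cases hcl : ∀ x, ∀ q ∈ (T x).asked (ans tri base κ),
          ans tri base κ q = ans tri base (full w c) q
        · left
          exact ⟨κ, by rw [reach]; exact Finset.mem_union_left _ hκ, hcl⟩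
        · right
          push Not at hcl
          obtain ⟨x, q, hq, hne⟩ := hcl
          rcases htri : tri q with _ | ⟨j, w', b⟩
          · exact absurd (by rw [ans_none htri, ans_none htri]) hne
          · rcases hj : κ j with _ | ⟨w'', b'⟩
            · rw [ans_unknown htri hj, ans_known htri (show full w c j = some (w j, c j) from rfl)]
                at hne
              have hd : w' = w j ∧ b = c j := by
                by_contra hd
                exact hne (by simp [hd])
              refine ⟨Function.update κ j (some (w', c j)), ?_, ?_, ?_⟩
              · rw [reach]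
                refine Finset.mem_union_right _ (Finset.mem_biUnion.mpr ⟨κ, hκ, ?_⟩)
                unfold grow
                refine Finset.mem_biUnion.mpr ⟨x, Finset.mem_univ _, Finset.mem_biUnion.mpr
                  ⟨q, List.mem_toFinset.mpr hq, ?_⟩⟩
                simp only [htri, hj, if_true]
                cases c j <;> simp
              · intro i' p hp
                by_cases hi : i' = j
                · subst hi
                  rw [Function.update_self] at hp
                  have := Option.some.inj hp
                  rw [← this, hd.1]
                · rw [Function.update_of_ne hi] at hp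
                  exact hc i' p hp
              · have e : known (Function.update κ j (some (w', c j))) = insert j (known κ) := by
                  ext i'
                  by_cases hi : i' = j
                  · subst hi; simp [known]
                  · simp [known, hi]
                rw [e, Finset.card_insert_of_notMem (by simp [known, hj]), hk]
            · have h1 := hc j _ hj
              have h2 : w'' = w j ∧ b' = c j := by
                have := Prod.mk.inj h1
                exact this
              exact absurd (by rw [ans_known htri hj,
                ans_known htri (show full w c j = some (w j, c j) from rfl), h2.1, h2.2]) hne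
  rcases key t with ⟨κ, hκ, h⟩ | ⟨κ, hκ, hc, hk⟩
  · exact ⟨κ, hκ, fun x => Alg.run_congr _ (h x)⟩
  · exact absurd (fun j p hp => by rw [hc j p hp]) (hw κ hκ hk)

/-- **One length, abstractly.** -/
theorem one_stage {Y : Type} [Fintype Y] (tri : Q → Option (X × W × Bool)) (base : Q → Bool)
    (T : X → Y → Y → Alg Q) (r t : ℕ) (hr : ∀ x y z, (T x y z).AtMost r)
    (H : Finset (X → Bool))
    (h₁ : Fintype.card (Y × Y) * (1 + Fintype.card X * (r * 2)) ^ t < Fintype.card W ^ t)
    (h₂ : Fintype.card (Y × Y) * (1 + Fintype.card X * (r * 2)) ^ t < H.card)
    (hW : 0 < Fintype.card W) :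
    ∃ (w : X → W), ∃ c ∈ H, ¬ ∃ y₀ z₀, ∀ x,
      (c x = true → ∀ z, (T x y₀ z).run (ans tri base (full w c)) = true) ∧
      (c x = false → ∀ y, (T x y z₀).run (ans tri base (full w c)) = false) := by
  classical
  obtain ⟨w, hw⟩ := exists_hidden tri base (fun (a : Y × Y) x => T x a.1 a.2) r t
    (fun a x => hr x a.1 a.2) h₁ hW
  refine ⟨w, ?_⟩
  by_contra hcon
  push Not at hcon
  -- the data of `c`
  have hcode : ∀ c ∈ H, ∃ p : (Y × Y) × (X → Option (W × Bool)),
      p ∈ (Finset.univ : Finset (Y × Y)).biUnion (fun a =>
        (reach tri base (fun x => T x a.1 a.2) t).image (fun κ => (a, κ))) ∧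
      ∀ x, (T x p.1.1 p.1.2).run (ans tri base p.2) = c x := by
    intro c hc
    obtain ⟨y₀, z₀, h⟩ := hcon c hc
    obtain ⟨κ, hκ, hrun⟩ := exists_closed tri base (fun x => T x y₀ z₀) t w (hw (y₀, z₀)) c
    refine ⟨((y₀, z₀), κ), ?_, fun x => ?_⟩
    · exact Finset.mem_biUnion.mpr ⟨(y₀, z₀), Finset.mem_univ _,
        Finset.mem_image.mpr ⟨κ, hκ, rfl⟩⟩
    · rw [hrun x]
      cases hx : c x with
      | true => exact (h x).1 hx z₀
      | false => exact (h x).2 hx y₀
  have hne : Nonempty ((Y × Y) × (X → Option (W × Bool))) := by
    obtain ⟨c, hc⟩ := Finset.card_pos.mp (by omega : 0 < H.card)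
    obtain ⟨p, -, -⟩ := hcode c hc
    exact ⟨p⟩
  choose! f hf hf' using hcode
  have hcard : H.card ≤ ((Finset.univ : Finset (Y × Y)).biUnion (fun a =>
      (reach tri base (fun x => T x a.1 a.2) t).image (fun κ => (a, κ)))).card := by
    refine Finset.card_le_card_of_injOn f (fun c hc => hf c hc) ?_
    intro c hc c' hc' he
    funext x
    rw [← hf' c hc x, ← hf' c' hc' x, he]
  have h3 := Finset.card_biUnion_le_card_mul (Finset.univ : Finset (Y × Y)) (fun a =>
      (reach tri base (fun x => T x a.1 a.2) t).image (fun κ => (a, κ)))
      ((1 + Fintype.card X * (r * 2)) ^ t) (fun a _ => Finset.card_image_le.trans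
        (reach_card tri base _ r (fun x => hr x a.1 a.2) t))
  rw [Finset.card_univ] at h3
  omega

end count

end Pool.Agent.H.MP_7934a7_lc.h84.SC
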