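import Mathlib
import Pool.Agent.H.MP_7934a7_lc.h84.Stage

/-!
One length concretely, and the general diagonal construction.
-/

namespace Pool.Agent.H.MP_7934a7_lc.h84.SC

/-! ### The code -/

lemma code_left {k : ℕ} (x : Str k) (w : Str (4 * k)) (b : Bool) (i : Fin k) :
    code x w b (Fin.castSucc (Fin.castAdd (4 * k) i)) = x i := by
  simp [code]

lemma code_mid {k : ℕ} (x : Str k) (w : Str (4 * k)) (b : Bool) (i : Fin (4 * k)) :
    code x w b (Fin.castSucc (Fin.natAdd k i)) = w i := by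
  unfold code
  rw [Fin.snoc_castSucc, Fin.append_right]

lemma code_last {k : ℕ} (x : Str k) (w : Str (4 * k)) (b : Bool) :
    code x w b (Fin.last _) = b := by
  simp [code]

lemma code_inj {k : ℕ} {x x' : Str k} {w w' : Str (4 * k)} {b b' : Bool}
    (h : code x w b = code x' w' b') : x = x' ∧ w = w' ∧ b = b' := by
  refine ⟨funext fun i => ?_, funext fun i => ?_, ?_⟩
  · rw [← code_left x w b i, h, code_left]
  · rw [← code_mid x w b i, h, code_mid]
  · rw [← code_last x w b, h, code_last]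

/-- the word `x w b` -/
def cword {k : ℕ} (x : Str k) (w : Str (4 * k)) (b : Bool) : Word := ⟨k + 4 * k + 1, code x w b⟩

lemma cword_inj {k : ℕ} {x x' : Str k} {w w' : Str (4 * k)} {b b' : Bool}
    (h : cword x w b = cword x' w' b') : x = x' ∧ w = w' ∧ b = b' := by
  unfold cword at h
  exact code_inj (eq_of_heq (Sigma.mk.inj h).2)

open Classical in
/-- decoding -/
noncomputable def tri (k : ℕ) (q : Word) : Option (Str k × Str (4 * k) × Bool) :=
  if h : ∃ p : Str k × Str (4 * k) × Bool, q = cword p.1 p.2.1 p.2.2 then some h.choose else none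

lemma tri_cword {k : ℕ} (x : Str k) (w : Str (4 * k)) (b : Bool) :
    tri k (cword x w b) = some (x, w, b) := by
  have hex : ∃ p : Str k × Str (4 * k) × Bool, cword x w b = cword p.1 p.2.1 p.2.2 :=
    ⟨(x, w, b), rfl⟩
  unfold tri
  rw [dif_pos hex]
  obtain ⟨h1, h2, h3⟩ := cword_inj hex.choose_spec
  congr 1
  exact Prod.ext h1.symm (Prod.ext h2.symm h3.symm)

lemma tri_none {k n : ℕ} (hn : n ≠ k + 4 * k + 1) (v : Str n) : tri k ⟨n, v⟩ = none := by
  unfold tri
  rw [dif_neg]
  rintro ⟨p, hp⟩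
  exact hn (Sigma.mk.inj hp).1

/-! ### Certified languages -/

lemma exists_certified (B : Lang) : ∃ O : Lang, Certified O B := by
  classical
  refine ⟨fun n v => decide (∃ (k : ℕ) (x : Str k), (⟨n, v⟩ : Word) =
    cword x (fun _ => false) (B k x)), ?_⟩
  intro k x
  refine ⟨fun _ => false, fun w' b => ?_⟩
  rw [decide_eq_true_iff]
  constructor
  · rintro ⟨k', x', h⟩
    have hk : k + 4 * k + 1 = k' + 4 * k' + 1 := (Sigma.mk.inj h).1
    have hk' : k = k' := by omega
    subst hk'
    obtain ⟨h1, h2, h3⟩ := cword_inj (show cword x w' b = cword x' (fun _ => false) (B k x') from h)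
    exact ⟨h2, by rw [h3, h1]⟩
  · rintro ⟨h1, h2⟩
    exact ⟨k, x, by rw [h1, h2]; rfl⟩

/-- A certified language is in `NO_2` and in `YO_2`, by verifiers that ask one question. -/
lemma certified_classes : ∃ V₁ V₂ : Verifier, (∀ k, V₁.len k = 4 * k ∧ V₁.cost k = 1) ∧
    (∀ k, V₂.len k = 4 * k ∧ V₂.cost k = 1) ∧ ∀ (O B : Lang), Certified O B →
      ∀ k, NO2 (V₁.value O k) (B k) ∧ YO2 (V₂.value O k) (B k) := by
  refine ⟨⟨fun k => 4 * k, fun _ => 1, fun k x y _ => .ask (cword x y true) .out,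
    fun _ _ _ _ => by simp [Alg.AtMost]⟩,
    ⟨fun k => 4 * k, fun _ => 1, fun k x _ z => .ask (cword x z false) (fun a => .out (!a)),
    fun _ _ _ _ => by simp [Alg.AtMost]⟩, fun _ => ⟨rfl, rfl⟩, fun _ => ⟨rfl, rfl⟩, ?_⟩
  intro O B hO k
  constructor
  · refine ⟨fun _ => false, fun x => ⟨fun hx => ?_, fun hx y => ?_⟩⟩
    · obtain ⟨w, hw⟩ := hO k x
      exact ⟨w, fun _ => (hw w true).mpr ⟨rfl, hx.symm⟩⟩
    · obtain ⟨w, hw⟩ := hO k x
      show O (k + 4 * k + 1) (code x y true) = false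
      rw [Bool.eq_false_iff]
      intro h
      have h1 := ((hw y true).mp h).2
      rw [hx] at h1
      exact absurd h1 (by simp)
  · refine ⟨fun _ => false, fun x => ⟨fun hx z => ?_, fun hx => ?_⟩⟩
    · obtain ⟨w, hw⟩ := hO k x
      show (!(O (k + 4 * k + 1) (code x z false))) = true
      rw [Bool.not_eq_true', Bool.eq_false_iff]
      intro h
      have h1 := ((hw z false).mp h).2
      rw [hx] at h1
      exact absurd h1 (by simp)
    · obtain ⟨w, hw⟩ := hO k x
      refine ⟨w, fun _ => ?_⟩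
      show (!(O (k + 4 * k + 1) (code x w false))) = false
      rw [Bool.not_eq_false']
      exact (hw w false).mpr ⟨rfl, hx.symm⟩

/-! ### One length -/

lemma stage_O2 (V : Verifier) (O₀ B₀ : Lang) (hO : Certified O₀ B₀) (k : ℕ) (hk : 1 ≤ k)
    (H : Finset (Str k → Bool)) (h₁ : 2 ^ ((2 * k + 2) * (2 * V.len k + 1)) < H.card)
    (h₂ : V.cost k < 2 ^ k) :
    ∃ O B : Lang, Certified O B ∧ (∀ n, n ≠ k + 4 * k + 1 → O n = O₀ n) ∧
      (∀ n, n ≠ k → B n = B₀ n) ∧ B k ∈ H ∧ ¬ O2 (V.value O k) (B k) := by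
  classical
  have hbase : 1 + Fintype.card (Str k) * (V.cost k * 2) ≤ 2 ^ (2 * k + 1) := by
    have e1 : Fintype.card (Str k) = 2 ^ k := by simp
    rw [e1]
    have e2 : 2 ^ (2 * k + 1) = 2 ^ k * (2 ^ k * 2) := by ring
    rw [e2]
    have h3 : 2 ^ k * (V.cost k * 2) + 2 ^ k * 2 ≤ 2 ^ k * (2 ^ k * 2) := by
      have h5 : V.cost k + 1 ≤ 2 ^ k := h₂
      calc 2 ^ k * (V.cost k * 2) + 2 ^ k * 2 = 2 ^ k * ((V.cost k + 1) * 2) := by ring
        _ ≤ 2 ^ k * (2 ^ k * 2) := Nat.mul_le_mul_left _ (Nat.mul_le_mul_right _ h5)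
    have h4 : 1 ≤ 2 ^ k := Nat.one_le_two_pow
    omega
  have hM : Fintype.card (Str (V.len k) × Str (V.len k)) = 2 ^ (2 * V.len k) := by
    simp only [Fintype.card_prod, Fintype.card_fun, Fintype.card_fin, Fintype.card_bool]
    ring
  have hle : Fintype.card (Str (V.len k) × Str (V.len k)) *
      (1 + Fintype.card (Str k) * (V.cost k * 2)) ^ (2 * V.len k + 1) ≤
      2 ^ (2 * V.len k + (2 * k + 1) * (2 * V.len k + 1)) := by
    rw [hM]
    calc 2 ^ (2 * V.len k) *
          (1 + Fintype.card (Str k) * (V.cost k * 2)) ^ (2 * V.len k + 1)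
        ≤ 2 ^ (2 * V.len k) * (2 ^ (2 * k + 1)) ^ (2 * V.len k + 1) :=
          Nat.mul_le_mul_left _ (Nat.pow_le_pow_left hbase _)
      _ = 2 ^ (2 * V.len k + (2 * k + 1) * (2 * V.len k + 1)) := by
          rw [← pow_mul, ← pow_add]
  have hlt : 2 * V.len k + (2 * k + 1) * (2 * V.len k + 1) <
      (2 * k + 2) * (2 * V.len k + 1) := by
    have e : (2 * k + 2) * (2 * V.len k + 1) =
      (2 * k + 1) * (2 * V.len k + 1) + (2 * V.len k + 1) := by ring
    omega
  have hcW : Fintype.card (Str (4 * k)) = 2 ^ (4 * k) := by simp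
  obtain ⟨w, c, hc, hbad⟩ := one_stage (X := Str k) (W := Str (4 * k)) (Y := Str (V.len k))
    (tri k) (fun q => O₀ q.1 q.2) (fun x y z => V.alg k x y z) (V.cost k) (2 * V.len k + 1)
    (fun x y z => V.alg_cost k x y z) H
    (by
      refine lt_of_le_of_lt hle ?_
      rw [hcW, ← pow_mul]
      refine Nat.pow_lt_pow_right (by norm_num) (lt_of_lt_of_le hlt ?_)
      exact Nat.mul_le_mul_right _ (by omega))
    (lt_of_le_of_lt hle (lt_trans (Nat.pow_lt_pow_right (by norm_num) hlt) h₁))
    (by rw [hcW]; positivity)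
  let O : Lang := fun n v => ans (tri k) (fun q : Word => O₀ q.1 q.2) (full w c) ⟨n, v⟩
  refine ⟨O, Function.update B₀ k c, ?_, ?_, ?_, ?_, ?_⟩
  · intro k' x
    by_cases hk' : k' = k
    · subst hk'
      refine ⟨w x, fun w' b => ?_⟩
      have e : O (k' + 4 * k' + 1) (code x w' b) = decide (w' = w x ∧ b = c x) :=
        ans_known (tri_cword x w' b) (show full w c x = some (w x, c x) from rfl)
      rw [e, Function.update_self, decide_eq_true_iff]
    · obtain ⟨w₀, hw₀⟩ := hO k' x
      refine ⟨w₀, fun w' b => ?_⟩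
      have e : O (k' + 4 * k' + 1) (code x w' b) = O₀ (k' + 4 * k' + 1) (code x w' b) :=
        ans_none (tri_none (by omega) _)
      rw [e, Function.update_of_ne hk']
      exact hw₀ w' b
  · intro n hn
    funext v
    exact ans_none (tri_none hn v)
  · intro n hn
    exact Function.update_of_ne hn _ _
  · rw [Function.update_self]
    exact hc
  · rw [Function.update_self]
    exact hbad

/-! ### The diagonal construction -/

/-- length of the longest question -/
def Alg.maxLen : Alg Word → ℕ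
  | .out _ => 0
  | .ask q next => max q.1 (max (next true).maxLen (next false).maxLen)

lemma Alg.run_eq_of_le {O O' : Lang} {N : ℕ} (h : ∀ n ≤ N, O n = O' n) (A : Alg Word) :
    A.maxLen ≤ N → A.run (fun q => O q.1 q.2) = A.run (fun q => O' q.1 q.2) := by
  induction A with
  | out b => intro _; rfl
  | ask q next ih =>
    intro hA
    simp only [Alg.maxLen, max_le_iff] at hA
    have h1 : O q.1 q.2 = O' q.1 q.2 := by rw [h q.1 hA.1]
    simp only [Alg.run]
    rw [← h1]
    cases O q.1 q.2 with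
    | true => exact ih true hA.2.1
    | false => exact ih false hA.2.2

/-- bound for the length of all questions of `V` on inputs of length `k` -/
def Verifier.bound (V : Verifier) (k : ℕ) : ℕ :=
  Finset.univ.sup fun x : Str k => Finset.univ.sup fun y : Str (V.len k) =>
    Finset.univ.sup fun z : Str (V.len k) => (V.alg k x y z).maxLen

lemma Verifier.value_eq_of_le (V : Verifier) {k : ℕ} {O O' : Lang}
    (h : ∀ n ≤ V.bound k, O n = O' n) : V.value O k = V.value O' k := by
  funext x y z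
  refine Alg.run_eq_of_le h _ ?_
  refine le_trans ?_ (Finset.le_sup (f := fun x : Str k => Finset.univ.sup
    fun y : Str (V.len k) => Finset.univ.sup fun z : Str (V.len k) => (V.alg k x y z).maxLen)
    (Finset.mem_univ x))
  refine le_trans ?_ (Finset.le_sup (f := fun y : Str (V.len k) => Finset.univ.sup
    fun z : Str (V.len k) => (V.alg k x y z).maxLen) (Finset.mem_univ y))
  exact Finset.le_sup (f := fun z : Str (V.len k) => (V.alg k x y z).maxLen) (Finset.mem_univ z)

/-- **Diagonal construction.** `P k b` is a local requirement for the language at length `k`, and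
`Bad i k v b` says that the requirement number `i` is spoiled at length `k` by the values `v` of the
verifier number `i` and the language `b`. -/
theorem diagonal (V : ℕ → Verifier) (P : (k : ℕ) → (Str k → Bool) → Prop)
    (Bad : (i k : ℕ) → (Str k → Str ((V i).len k) → Str ((V i).len k) → Bool) →
      (Str k → Bool) → Prop)
    (h₀ : ∀ k, ∃ b, P k b)
    (hstep : ∀ i N (O₀ B₀ : Lang), Certified O₀ B₀ → (∀ k, P k (B₀ k)) →
      ∃ k > N, ∃ O B : Lang, Certified O B ∧ (∀ n, n ≠ k + 4 * k + 1 → O n = O₀ n) ∧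
        (∀ n, n ≠ k → B n = B₀ n) ∧ P k (B k) ∧ Bad i k ((V i).value O k) (B k)) :
    ∃ O B : Lang, (∀ k, P k (B k)) ∧ Certified O B ∧
      ∀ i N, ∃ k ≥ N, Bad i k ((V i).value O k) (B k) := by
  classical
  -- stages: an oracle, a language, and the length up to which they are final
  let St : Type := {s : (Lang × Lang) × ℕ // Certified s.1.1 s.1.2 ∧ ∀ k, P k (s.1.2 k)}
  have hnext : ∀ (i : ℕ) (s : St), ∃ s' : St, s.1.2 < s'.1.2 ∧
      (∀ n ≤ s.1.2, s'.1.1.1 n = s.1.1.1 n ∧ s'.1.1.2 n = s.1.1.2 n) ∧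
      ∃ k > s.1.2, ∀ O B : Lang, (∀ n ≤ s'.1.2, O n = s'.1.1.1 n ∧ B n = s'.1.1.2 n) →
        Bad i k ((V i).value O k) (B k) := by
    intro i s
    obtain ⟨⟨⟨O₀, B₀⟩, F⟩, hC, hP⟩ := s
    obtain ⟨k, hk, O, B, h1, h2, h3, h4, h5⟩ := hstep i F O₀ B₀ hC hP
    refine ⟨⟨((O, B), max (k + 4 * k + 1) ((V i).bound k)), h1, fun k' => ?_⟩, ?_, ?_, k, hk, ?_⟩
    · by_cases hk' : k' = k
      · subst hk'; exact h4
      · show P k' (B k')
        rw [h3 k' hk']
        exact hP k'
    · have := le_max_left (k + 4 * k + 1) ((V i).bound k)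
      simp only
      omega
    · intro n hn
      exact ⟨h2 n (by simp only at hn; omega), h3 n (by simp only at hn; omega)⟩
    · intro O' B' hO'
      have e1 : B' k = B k := (hO' k (by simp only; omega)).2
      have e2 : (V i).value O' k = (V i).value O k :=
        (V i).value_eq_of_le (fun n hn => (hO' n (hn.trans (le_max_right _ _))).1)
      rw [e1, e2]
      exact h5
  choose nxt hnxt using hnext
  choose b₀ hb₀ using h₀
  obtain ⟨O₀, hO₀⟩ := exists_certified b₀
  let S : ℕ → St := fun j => Nat.rec ⟨((O₀, b₀), 0), hO₀, hb₀⟩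
    (fun j s => nxt (Nat.unpair j).1 s) j
  have hS : ∀ j, S (j + 1) = nxt (Nat.unpair j).1 (S j) := fun j => rfl
  have hlt : ∀ j, (S j).1.2 < (S (j + 1)).1.2 := by
    intro j
    rw [hS]
    exact (hnxt _ (S j)).1
  have hge : ∀ j, j ≤ (S j).1.2 := by
    intro j
    induction j with
    | zero => exact Nat.zero_le _
    | succ j ih =>
      have := hlt j
      omega
  have hmono : ∀ i j, i ≤ j → (S i).1.2 ≤ (S j).1.2 := by
    intro i j hij
    induction j, hij using Nat.le_induction with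
    | base => exact le_rfl
    | succ j _ ih => exact le_trans ih (hlt j).le
  have hagree : ∀ i j, i ≤ j → ∀ n ≤ (S i).1.2,
      (S j).1.1.1 n = (S i).1.1.1 n ∧ (S j).1.1.2 n = (S i).1.1.2 n := by
    intro i j hij
    induction j, hij using Nat.le_induction with
    | base => intro n _; exact ⟨rfl, rfl⟩
    | succ j hj ih =>
      intro n hn
      rw [hS]
      have h1 := (hnxt (Nat.unpair j).1 (S j)).2.1 n (hn.trans (hmono i j hj))
      exact ⟨h1.1.trans (ih n hn).1, h1.2.trans (ih n hn).2⟩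
  let O : Lang := fun n => (S n).1.1.1 n
  let B : Lang := fun n => (S n).1.1.2 n
  have hOB : ∀ j, ∀ n ≤ (S j).1.2, O n = (S j).1.1.1 n ∧ B n = (S j).1.1.2 n := by
    intro j n hn
    rcases le_total n j with h | h
    · have h1 := hagree n j h n (hge n)
      exact ⟨h1.1.symm, h1.2.symm⟩
    · have h1 := hagree j n h n hn
      exact ⟨h1.1, h1.2⟩
  refine ⟨O, B, fun k => (S k).2.2 k, ?_, ?_⟩
  · intro k x
    obtain ⟨w, hw⟩ := (S (k + 4 * k + 1)).2.1 k x
    refine ⟨w, fun w' b => ?_⟩
    have h1 := (hOB (k + 4 * k + 1) (k + 4 * k + 1) (hge _)).1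
    have h2 := (hOB (k + 4 * k + 1) k
      (le_trans (by omega : k ≤ k + 4 * k + 1) (hge (k + 4 * k + 1)))).2
    rw [h1, h2]
    exact hw w' b
  · intro i N
    obtain ⟨k, hk, hbad⟩ := (hnxt (Nat.unpair (Nat.pair i N)).1 (S (Nat.pair i N))).2.2
    have h3 : (Nat.unpair (Nat.pair i N)).1 = i := by simp
    refine ⟨k, ?_, ?_⟩
    · have h1 : N ≤ Nat.pair i N := Nat.right_le_pair i N
      have h2 := hge (Nat.pair i N)
      omega
    · have h4 := hbad O B (hOB (Nat.pair i N + 1))
      rw [h3] at h4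
      exact h4

end Pool.Agent.H.MP_7934a7_lc.h84.SC
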