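import Mathlib
import Pool.Agent.H.MP_7934a7_lc.h84.Defs

/-!
The positive part: non-clashing teaching sets, the verifier `W`, and the simulation.
-/

namespace Pool.Agent.H.MP_7934a7_lc.h84.SC

/-! ### Algorithms -/

/-- run the first algorithm and then, depending on its output, another one -/
def Alg.bind {Q : Type} : Alg Q → (Bool → Alg Q) → Alg Q
  | .out b, f => f b
  | .ask q next, f => .ask q (fun a => (next a).bind f)

lemma Alg.run_bind {Q : Type} (g : Q → Bool) (T : Alg Q) (f : Bool → Alg Q) :
    (T.bind f).run g = (f (T.run g)).run g := by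
  induction T with
  | out b => rfl
  | ask q next ih => exact ih _

lemma Alg.atMost_mono {Q : Type} (T : Alg Q) : ∀ k l, k ≤ l → T.AtMost k → T.AtMost l := by
  induction T with
  | out b => intro k l _ _; simp [Alg.AtMost]
  | ask q next ih =>
    intro k l hkl hk
    cases k with
    | zero => exact absurd hk (by simp [Alg.AtMost])
    | succ k =>
      cases l with
      | zero => omega
      | succ l =>
        have hk' : ∀ a, (next a).AtMost k := hk
        exact fun a => ih a k l (by omega) (hk' a)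

lemma Alg.atMost_bind {Q : Type} (T : Alg Q) (f : Bool → Alg Q) (d : ℕ)
    (hf : ∀ b, (f b).AtMost d) : ∀ c, T.AtMost c → (T.bind f).AtMost (c + d) := by
  induction T with
  | out b => intro c _; exact Alg.atMost_mono _ d _ (by omega) (hf b)
  | ask q next ih =>
    intro c hc
    cases c with
    | zero => exact absurd hc (by simp [Alg.AtMost])
    | succ c =>
      have hc' : ∀ a, (next a).AtMost c := hc
      have e : c + 1 + d = (c + d) + 1 := by omega
      rw [e]
      exact fun a => ih a c (hc' a)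

/-! ### Non-clashing teaching sets -/

/-- Every finite set `H` of functions has non-clashing teaching sets with at most `log |H|`
elements. -/
theorem exists_teaching {X : Type} [DecidableEq X] (H : Finset (X → Bool)) :
    ∃ T : (X → Bool) → Finset X, (∀ c ∈ H, (T c).card ≤ Nat.log 2 H.card) ∧
      ∀ c ∈ H, ∀ c' ∈ H, c ≠ c' → ∃ j ∈ T c ∪ T c', c j ≠ c' j := by
  classical
  induction H using Finset.strongInduction with
  | H H ih =>
    by_cases hone : H.card ≤ 1
    · refine ⟨fun _ => ∅, fun _ _ => by simp, fun c hc c' hc' hne => ?_⟩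
      exact absurd (Finset.card_le_one.mp hone c hc c' hc') hne
    · obtain ⟨c₁, h1, c₂, h2, h12⟩ := Finset.one_lt_card.mp (by omega : 1 < H.card)
      obtain ⟨j, hj⟩ := Function.ne_iff.mp h12
      -- the minority value at `j`
      obtain ⟨b, hb⟩ : ∃ b : Bool, (H.filter (fun c => c j = b)).card ≤
          (H.filter (fun c => ¬ c j = b)).card := by
        rcases le_total (H.filter (fun c => c j = true)).card
          (H.filter (fun c => ¬ c j = true)).card with h | h
        · exact ⟨true, h⟩
        · refine ⟨false, ?_⟩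
          have e1 : H.filter (fun c => c j = false) = H.filter (fun c => ¬ c j = true) := by
            ext c; simp
          have e2 : H.filter (fun c => ¬ c j = false) = H.filter (fun c => c j = true) := by
            ext c; simp
          rw [e1, e2]
          exact h
      have hsum := Finset.card_filter_add_card_filter_not (s := H) (fun c => c j = b)
      have hne1 : (H.filter (fun c => c j = b)).Nonempty := by
        by_cases h : c₁ j = b
        · exact ⟨c₁, by simp [h1, h]⟩
        · refine ⟨c₂, ?_⟩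
          have : c₂ j = b := by
            revert hj h
            cases c₁ j <;> cases c₂ j <;> cases b <;> simp
          simp [h2, this]
      have hne2 : (H.filter (fun c => ¬ c j = b)).Nonempty := by
        by_cases h : c₁ j = b
        · refine ⟨c₂, ?_⟩
          have : ¬ c₂ j = b := by
            revert hj h
            cases c₁ j <;> cases c₂ j <;> cases b <;> simp
          simp [h2, this]
        · exact ⟨c₁, by simp [h1, h]⟩
      have hp1 := hne1.card_pos
      have hp2 := hne2.card_pos
      have hs1 : H.filter (fun c => c j = b) ⊂ H := by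
        refine Finset.ssubset_iff_subset_ne.mpr ⟨Finset.filter_subset _ _, fun h => ?_⟩
        rw [h] at hsum
        omega
      have hs2 : H.filter (fun c => ¬ c j = b) ⊂ H := by
        refine Finset.ssubset_iff_subset_ne.mpr ⟨Finset.filter_subset _ _, fun h => ?_⟩
        rw [h] at hsum
        omega
      obtain ⟨T₁, hT₁, hc₁⟩ := ih _ hs1
      obtain ⟨T₂, hT₂, hc₂⟩ := ih _ hs2
      refine ⟨fun c => if c j = b then insert j (T₁ c) else T₂ c, fun c hc => ?_,
        fun c hc c' hc' hne => ?_⟩
      · by_cases h : c j = b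
        · simp only [h, if_true]
          have h3 := hT₁ c (by simp [hc, h])
          have h4 : Nat.log 2 (2 * (H.filter (fun c => c j = b)).card) ≤ Nat.log 2 H.card :=
            Nat.log_mono_right (by omega)
          have h5 : Nat.log 2 (2 * (H.filter (fun c => c j = b)).card)
              = Nat.log 2 (H.filter (fun c => c j = b)).card + 1 := by
            rw [mul_comm]
            exact Nat.log_mul_base (by omega) (by omega)
          have h6 := Finset.card_insert_le j (T₁ c)
          omega
        · simp only [h, if_false]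
          have h3 := hT₂ c (by simp [hc, h])
          exact h3.trans (Nat.log_mono_right (Finset.card_le_card (Finset.filter_subset _ _)))
      · by_cases h : c j = b
        · by_cases h' : c' j = b
          · obtain ⟨i, hi, hi'⟩ := hc₁ c (by simp [hc, h]) c' (by simp [hc', h']) hne
            refine ⟨i, ?_, hi'⟩
            simp only [h, h', if_true]
            rw [Finset.mem_union] at hi ⊢
            rcases hi with hi | hi
            · exact Or.inl (Finset.mem_insert_of_mem hi)
            · exact Or.inr (Finset.mem_insert_of_mem hi)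
          · refine ⟨j, ?_, fun e => h' (e ▸ h)⟩
            simp [h]
        · by_cases h' : c' j = b
          · refine ⟨j, ?_, fun e => h (e.trans h')⟩
            simp [h']
          · obtain ⟨i, hi, hi'⟩ := hc₂ c (by simp [hc, h]) c' (by simp [hc', h']) hne
            refine ⟨i, ?_, hi'⟩
            simp only [h, h', if_false]
            exact hi

/-! ### Coding of the messages -/

/-- a type with at most `2^L` elements can be coded by strings of length `L` -/
lemma exists_decoder (M : Type) [Fintype M] [Nonempty M] (L : ℕ) (h : Fintype.card M ≤ 2 ^ L) :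
    ∃ f : Str L → M, Function.Surjective f := by
  classical
  have h1 : Fintype.card M ≤ Fintype.card (Str L) := by
    simpa using h
  obtain ⟨g⟩ := Function.Embedding.nonempty_of_card_le h1
  exact ⟨Function.invFun g, Function.invFun_surjective g.injective⟩

lemma Forces.o2 {n m : ℕ} {v : Str n → Str m → Str m → Bool} {S : Str n → Bool} {a : Str m}
    (h : Forces v S a) : O2 v S := by
  refine ⟨a, a, fun x => ⟨fun hx z => ?_, fun hx y => ?_⟩⟩
  · rw [(h x).1 z, hx]
  · rw [(h x).2 y, hx]

section check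

variable (V₁ V₂ : Verifier) (k : ℕ)

/-- check the claim of one prover that `j` has value `b` with its certificate `w` against the
universal strings `e` of the other prover; output `g` if the claim passes, and `g'` if not -/
def check (j : Str k) (b : Bool) (w e : Str (V₁.len k) × Str (V₂.len k)) (g g' : Bool) :
    Alg Word :=
  if b = true then
    (V₁.alg k j w.1 e.1).bind (fun r => if r = true then .out g else .out g')
  else
    (V₂.alg k j e.2 w.2).bind (fun r => if r = true then .out g' else .out g)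

lemma check_cost (j : Str k) (b : Bool) (w e : Str (V₁.len k) × Str (V₂.len k)) (g g' : Bool) :
    (check V₁ V₂ k j b w e g g').AtMost (max (V₁.cost k) (V₂.cost k)) := by
  unfold check
  split
  · have h := Alg.atMost_bind (V₁.alg k j w.1 e.1)
      (fun r => if r = true then .out g else .out g') 0
      (fun r => by cases r <;> simp [Alg.AtMost]) _ (V₁.alg_cost k j w.1 e.1)
    exact Alg.atMost_mono _ _ _ (le_max_left _ _) h
  · have h := Alg.atMost_bind (V₂.alg k j e.2 w.2)
      (fun r => if r = true then .out g' else .out g) 0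
      (fun r => by cases r <;> simp [Alg.AtMost]) _ (V₂.alg_cost k j e.2 w.2)
    exact Alg.atMost_mono _ _ _ (le_max_right _ _) h

variable {V₁ V₂ k}

/-- `w` certifies that `j` has value `b`, against every string -/
def Good (V₁ V₂ : Verifier) (k : ℕ) (O : Lang) (j : Str k) (b : Bool)
    (w : Str (V₁.len k) × Str (V₂.len k)) : Prop :=
  (b = true → ∀ z, V₁.value O k j w.1 z = true) ∧ (b = false → ∀ y, V₂.value O k j y w.2 = false)

/-- `e` refutes every wrong claim -/
def Refutes (V₁ V₂ : Verifier) (k : ℕ) (O : Lang) (S : Str k → Bool)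
    (e : Str (V₁.len k) × Str (V₂.len k)) : Prop :=
  ∀ j, (S j = false → ∀ y, V₁.value O k j y e.1 = false) ∧
    (S j = true → ∀ z, V₂.value O k j e.2 z = true)

lemma check_good {O : Lang} {j : Str k} {b : Bool} {w : Str (V₁.len k) × Str (V₂.len k)}
    (h : Good V₁ V₂ k O j b w) (e : Str (V₁.len k) × Str (V₂.len k)) (g g' : Bool) :
    (check V₁ V₂ k j b w e g g').run (fun q => O q.1 q.2) = g := by
  unfold check
  cases b with
  | true =>
    have h1 := h.1 rfl e.1
    unfold Verifier.value at h1
    rw [if_pos rfl, Alg.run_bind, h1]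
    simp [Alg.run]
  | false =>
    have h1 := h.2 rfl e.2
    unfold Verifier.value at h1
    rw [if_neg (by simp), Alg.run_bind, h1]
    simp [Alg.run]

lemma check_refutes {O : Lang} {S : Str k → Bool} {e : Str (V₁.len k) × Str (V₂.len k)}
    (h : Refutes V₁ V₂ k O S e) {j : Str k} {b : Bool} (hb : b ≠ S j)
    (w : Str (V₁.len k) × Str (V₂.len k)) (g g' : Bool) :
    (check V₁ V₂ k j b w e g g').run (fun q => O q.1 q.2) = g' := by
  unfold check
  cases b with
  | true =>
    have h0 : S j = false := by revert hb; cases S j <;> simp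
    have h1 := (h j).1 h0 w.1
    unfold Verifier.value at h1
    rw [if_pos rfl, Alg.run_bind, h1]
    simp [Alg.run]
  | false =>
    have h0 : S j = true := by revert hb; cases S j <;> simp
    have h1 := (h j).2 h0 w.2
    unfold Verifier.value at h1
    rw [if_neg (by simp), Alg.run_bind, h1]
    simp [Alg.run]

end check

/-- messages: a function in `H`, certificates, universal strings -/
abbrev Msg (V₁ V₂ : Verifier) (k s : ℕ) (H : Finset (Str k → Bool)) :=
  ({c : Str k → Bool // c ∈ H} × (Fin (s + 1) → Str (V₁.len k) × Str (V₂.len k))) ×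
    (Str (V₁.len k) × Str (V₂.len k))

open Classical in
/-- the comparison of two messages -/
noncomputable def duel (V₁ V₂ : Verifier) (k s : ℕ) (H : Finset (Str k → Bool))
    (T : (Str k → Bool) → Finset (Str k)) (ι : (Str k → Bool) → Str k → Fin (s + 1))
    (x : Str k) (a b : Msg V₁ V₂ k s H) : Alg Word :=
  if a.1.1.1 x = b.1.1.1 x then .out (a.1.1.1 x)
  else if h : ∃ j ∈ T a.1.1.1, a.1.1.1 j ≠ b.1.1.1 j then
    check V₁ V₂ k h.choose (a.1.1.1 h.choose) (a.1.2 (ι a.1.1.1 h.choose)) b.2
      (a.1.1.1 x) (b.1.1.1 x)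
  else if h : ∃ j ∈ T b.1.1.1, a.1.1.1 j ≠ b.1.1.1 j then
    check V₁ V₂ k h.choose (b.1.1.1 h.choose) (b.1.2 (ι b.1.1.1 h.choose)) a.2
      (b.1.1.1 x) (a.1.1.1 x)
  else .out false

lemma duel_cost (V₁ V₂ : Verifier) (k s : ℕ) (H : Finset (Str k → Bool))
    (T : (Str k → Bool) → Finset (Str k)) (ι : (Str k → Bool) → Str k → Fin (s + 1))
    (x : Str k) (a b : Msg V₁ V₂ k s H) :
    (duel V₁ V₂ k s H T ι x a b).AtMost (max (V₁.cost k) (V₂.cost k)) := by
  unfold duel
  split_ifs
  · simp [Alg.AtMost]
  · exact check_cost _ _ _ _ _ _ _ _ _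
  · exact check_cost _ _ _ _ _ _ _ _ _
  · simp [Alg.AtMost]

/-- the message of an honest prover -/
def Honest (V₁ V₂ : Verifier) (k s : ℕ) (H : Finset (Str k → Bool))
    (T : (Str k → Bool) → Finset (Str k)) (ι : (Str k → Bool) → Str k → Fin (s + 1))
    (O : Lang) (S : Str k → Bool) (a : Msg V₁ V₂ k s H) : Prop :=
  a.1.1.1 = S ∧ (∀ j ∈ T S, Good V₁ V₂ k O j (S j) (a.1.2 (ι S j))) ∧ Refutes V₁ V₂ k O S a.2

lemma duel_left {V₁ V₂ : Verifier} {k s : ℕ} {H : Finset (Str k → Bool)}
    {T : (Str k → Bool) → Finset (Str k)} {ι : (Str k → Bool) → Str k → Fin (s + 1)}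
    (hT : ∀ c ∈ H, ∀ c' ∈ H, c ≠ c' → ∃ j ∈ T c ∪ T c', c j ≠ c' j)
    {O : Lang} {S : Str k → Bool} {a : Msg V₁ V₂ k s H} (ha : Honest V₁ V₂ k s H T ι O S a)
    (x : Str k) (b : Msg V₁ V₂ k s H) :
    (duel V₁ V₂ k s H T ι x a b).run (fun q => O q.1 q.2) = S x := by
  obtain ⟨h1, h2, h3⟩ := ha
  unfold duel
  rw [h1]
  split_ifs with hx hj hj'
  · rfl
  · obtain ⟨hm, hne⟩ := hj.choose_spec
    exact check_good (h2 _ hm) _ _ _
  · obtain ⟨hm, hne⟩ := hj'.choose_spec
    exact check_refutes h3 (Ne.symm hne) _ _ _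
  · exfalso
    have hne : S ≠ b.1.1.1 := fun e => hx (by rw [e])
    have hS : S ∈ H := h1 ▸ a.1.1.2
    obtain ⟨j, hm, hne'⟩ := hT S hS b.1.1.1 b.1.1.2 hne
    rcases Finset.mem_union.mp hm with hm | hm
    · exact hj ⟨j, hm, hne'⟩
    · exact hj' ⟨j, hm, hne'⟩

lemma duel_right {V₁ V₂ : Verifier} {k s : ℕ} {H : Finset (Str k → Bool)}
    {T : (Str k → Bool) → Finset (Str k)} {ι : (Str k → Bool) → Str k → Fin (s + 1)}
    (hT : ∀ c ∈ H, ∀ c' ∈ H, c ≠ c' → ∃ j ∈ T c ∪ T c', c j ≠ c' j)
    {O : Lang} {S : Str k → Bool} {b : Msg V₁ V₂ k s H} (hb : Honest V₁ V₂ k s H T ι O S b)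
    (x : Str k) (a : Msg V₁ V₂ k s H) :
    (duel V₁ V₂ k s H T ι x a b).run (fun q => O q.1 q.2) = S x := by
  obtain ⟨h1, h2, h3⟩ := hb
  unfold duel
  rw [h1]
  split_ifs with hx hj hj'
  · simp only [Alg.run]; exact hx
  · obtain ⟨hm, hne⟩ := hj.choose_spec
    exact check_refutes h3 hne _ _ _
  · obtain ⟨hm, hne⟩ := hj'.choose_spec
    exact check_good (h2 _ hm) _ _ _
  · exfalso
    have hne : a.1.1.1 ≠ S := fun e => hx (by rw [e])
    have hS : S ∈ H := h1 ▸ b.1.1.2
    obtain ⟨j, hm, hne'⟩ := hT a.1.1.1 a.1.1.2 S hS hne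
    rcases Finset.mem_union.mp hm with hm | hm
    · exact hj ⟨j, hm, hne'⟩
    · exact hj' ⟨j, hm, hne'⟩

/-- an injection of a set with at most `s` elements into `Fin (s + 1)` -/
lemma exists_index {X : Type} [DecidableEq X] (s : ℕ) (A : Finset X) (h : A.card ≤ s) :
    ∃ f : X → Fin (s + 1), Set.InjOn f A := by
  classical
  refine ⟨fun x => if hx : x ∈ A then Fin.castLE (by omega) (A.equivFin ⟨x, hx⟩) else 0, ?_⟩
  intro x hx y hy hxy
  have hx' : x ∈ A := hx
  have hy' : y ∈ A := hy
  simp only [hx', hy', dif_pos] at hxy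
  have h1 := Fin.castLE_injective _ hxy
  have h2 := A.equivFin.injective h1
  exact congrArg Subtype.val h2

/-- **Small classes are in `O_2`.** -/
theorem small (H : Family) (hne : ∀ k, (H k).Nonempty) (s : ℕ → ℕ)
    (hs : ∀ k, (H k).card ≤ 2 ^ s k) (V₁ V₂ : Verifier) :
    ∃ W : Verifier,
      (∀ k, W.len k = s k + (s k + 2) * (V₁.len k + V₂.len k)) ∧
      (∀ k, W.cost k = max (V₁.cost k) (V₂.cost k)) ∧
      ∀ (O B : Lang) (k : ℕ), B k ∈ H k → NO2 (V₁.value O k) (B k) → YO2 (V₂.value O k) (B k) →
        ∃ a, Forces (W.value O k) (B k) a := by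
  classical
  have hT := fun k => exists_teaching (H k)
  choose T hTc hT using hT
  have hTs : ∀ k, ∀ c ∈ H k, (T k c).card ≤ s k := by
    intro k c hc
    refine (hTc k c hc).trans ?_
    calc Nat.log 2 (H k).card ≤ Nat.log 2 (2 ^ s k) := Nat.log_mono_right (hs k)
      _ = s k := Nat.log_pow (by norm_num) _
  have hι : ∀ k (c : Str k → Bool), ∃ f : Str k → Fin (s k + 1), c ∈ H k →
      Set.InjOn f (T k c) := by
    intro k c
    by_cases hc : c ∈ H k
    · obtain ⟨f, hf⟩ := exists_index (s k) (T k c) (hTs k c hc)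
      exact ⟨f, fun _ => hf⟩
    · exact ⟨fun _ => 0, fun h => absurd h hc⟩
  choose ι hι using hι
  have hD : ∀ k, ∃ f : Str (s k + (s k + 2) * (V₁.len k + V₂.len k)) →
      Msg V₁ V₂ k (s k) (H k), Function.Surjective f := by
    intro k
    have : Nonempty {c : Str k → Bool // c ∈ H k} := (hne k).to_subtype
    apply exists_decoder
    have h1 : Fintype.card {c : Str k → Bool // c ∈ H k} = (H k).card := by simp
    simp only [Fintype.card_prod, Fintype.card_fun, Fintype.card_fin, Fintype.card_bool, h1]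
    calc (H k).card * (2 ^ V₁.len k * 2 ^ V₂.len k) ^ (s k + 1) * (2 ^ V₁.len k * 2 ^ V₂.len k)
        = (H k).card * (2 ^ V₁.len k * 2 ^ V₂.len k) ^ (s k + 2) := by ring
      _ ≤ 2 ^ s k * (2 ^ V₁.len k * 2 ^ V₂.len k) ^ (s k + 2) := Nat.mul_le_mul_right _ (hs k)
      _ = 2 ^ (s k + (s k + 2) * (V₁.len k + V₂.len k)) := by
        rw [← pow_add, ← pow_mul, ← pow_add, mul_comm (V₁.len k + V₂.len k)]
  choose D hD using hD
  refine ⟨⟨fun k => s k + (s k + 2) * (V₁.len k + V₂.len k),
    fun k => max (V₁.cost k) (V₂.cost k),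
    fun k x y z => duel V₁ V₂ k (s k) (H k) (T k) (ι k) x (D k y) (D k z),
    fun k x y z => duel_cost _ _ _ _ _ _ _ _ _ _⟩, fun _ => rfl, fun _ => rfl, ?_⟩
  intro O B k hB h₁ h₂
  obtain ⟨z₀, hz₀⟩ := h₁
  obtain ⟨y₀, hy₀⟩ := h₂
  have hw : ∀ j : Str k, ∃ w : Str (V₁.len k) × Str (V₂.len k), Good V₁ V₂ k O j (B k j) w := by
    intro j
    cases hj : B k j with
    | true =>
      obtain ⟨y, hy⟩ := (hz₀ j).1 hj
      exact ⟨(y, fun _ => false), fun _ => hy, fun h => absurd h (by simp)⟩
    | false =>
      obtain ⟨z, hz⟩ := (hy₀ j).2 hj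
      exact ⟨(fun _ => false, z), fun h => absurd h (by simp), fun _ => hz⟩
  choose w hw using hw
  let tab : Fin (s k + 1) → Str (V₁.len k) × Str (V₂.len k) := fun i =>
    if h : ∃ j ∈ T k (B k), ι k (B k) j = i then w h.choose else (fun _ => false, fun _ => false)
  obtain ⟨a, ha⟩ := hD k (((⟨B k, hB⟩, tab), (z₀, y₀)) : Msg V₁ V₂ k (s k) (H k))
  have hon : Honest V₁ V₂ k (s k) (H k) (T k) (ι k) O (B k) (D k a) := by
    rw [ha]
    refine ⟨rfl, fun j hj => ?_, fun j => ⟨fun h y => (hz₀ j).2 h y, fun h z => (hy₀ j).1 h z⟩⟩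
    have hex : ∃ j' ∈ T k (B k), ι k (B k) j' = ι k (B k) j := ⟨j, hj, rfl⟩
    have e : tab (ι k (B k) j) = w j := by
      simp only [tab, dif_pos hex]
      have h1 := hex.choose_spec
      exact congrArg w (hι k (B k) hB h1.1 hj h1.2)
    show Good V₁ V₂ k O j (B k j) (tab (ι k (B k) j))
    rw [e]
    exact hw j
  exact ⟨a, fun x => ⟨fun z => duel_left (hT k) hon x _, fun y => duel_right (hT k) hon x _⟩⟩

/-! ### The simulation -/

/-- replace the questions to `B` by runs of `W` -/
def sim (W : Verifier) {p : ℕ} (y z : (k : Fin (p + 1)) → Str (W.len k)) :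
    Alg (Word ⊕ (Σ k : Fin (p + 1), Str k)) → Alg Word
  | .out b => .out b
  | .ask (.inl q) next => .ask q (fun a => sim W y z (next a))
  | .ask (.inr q) next => (W.alg q.1 q.2 (y q.1) (z q.1)).bind (fun a => sim W y z (next a))

lemma sim_run {W : Verifier} {p : ℕ} {y z : (k : Fin (p + 1)) → Str (W.len k)} {O B : Lang}
    (h : ∀ (k : Fin (p + 1)) (q : Str k), W.value O k q (y k) (z k) = B k q)
    (A : Alg (Word ⊕ (Σ k : Fin (p + 1), Str k))) :
    (sim W y z A).run (fun q => O q.1 q.2) =
      A.run (Sum.elim (fun q => O q.1 q.2) (fun q => B q.1 q.2)) := by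
  induction A with
  | out b => rfl
  | ask q next ih =>
    cases q with
    | inl q =>
      simp only [sim, Alg.run, Sum.elim_inl]
      exact ih _
    | inr q =>
      simp only [sim, Alg.run, Sum.elim_inr, Alg.run_bind]
      have h1 := h q.1 q.2
      unfold Verifier.value at h1
      rw [h1]
      exact ih _

lemma sim_cost {W : Verifier} {p r : ℕ} (hr : ∀ k ≤ p, W.cost k ≤ r)
    (y z : (k : Fin (p + 1)) → Str (W.len k)) (A : Alg (Word ⊕ (Σ k : Fin (p + 1), Str k))) :
    ∀ c, A.AtMost c → (sim W y z A).AtMost (c * (r + 1)) := by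
  induction A with
  | out b => intro c _; simp [sim, Alg.AtMost]
  | ask q next ih =>
    intro c hc
    cases c with
    | zero => exact absurd hc (by simp [Alg.AtMost])
    | succ c =>
      have hc' : ∀ a, (next a).AtMost c := hc
      cases q with
      | inl q =>
        have h1 : ∀ a, (sim W y z (next a)).AtMost (c * (r + 1)) := fun a => ih a c (hc' a)
        refine Alg.atMost_mono _ (c * (r + 1) + 1) _ (by nlinarith) ?_
        exact h1
      | inr q =>
        have h2 : (sim W y z (.ask (.inr q) next)).AtMost (W.cost q.1 + c * (r + 1)) :=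
          Alg.atMost_bind _ _ _ (fun a => ih a c (hc' a)) _ (W.alg_cost _ _ _ _)
        have h3 := hr q.1 (by have := q.1.2; omega)
        exact Alg.atMost_mono _ _ _ (by nlinarith) h2

/-- **The simulation.** -/
theorem simulate (W : Verifier) (U : Verifier₂) (M r : ℕ → ℕ)
    (hM : ∀ n, ∀ k ≤ U.size n, W.len k ≤ M n) (hr : ∀ n, ∀ k ≤ U.size n, W.cost k ≤ r n) :
    ∃ V : Verifier,
      (∀ n, V.len n = U.len n + (U.size n + 1) * M n) ∧
      (∀ n, V.cost n = U.cost n * (r n + 1)) ∧
      ∀ (O B : Lang) (n : ℕ) (S : Str n → Bool),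
        (∀ k ≤ U.size n, ∃ a, Forces (W.value O k) (B k) a) →
          (NO2 (U.value O B n) S → NO2 (V.value O n) S) ∧
          (YO2 (U.value O B n) S → YO2 (V.value O n) S) ∧
          (O2 (U.value O B n) S → O2 (V.value O n) S) ∧
          (S2 (U.value O B n) S → S2 (V.value O n) S) := by
  classical
  have hD : ∀ n, ∃ f : Str (U.len n + (U.size n + 1) * M n) →
      Str (U.len n) × ((k : Fin (U.size n + 1)) → Str (W.len k)), Function.Surjective f := by
    intro n
    apply exists_decoder
    simp only [Fintype.card_prod, Fintype.card_pi, Finset.prod_const, Finset.card_univ,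
      Fintype.card_fin, Fintype.card_bool]
    rw [Finset.prod_pow_eq_pow_sum, ← pow_add]
    refine Nat.pow_le_pow_right (by norm_num) (Nat.add_le_add_left ?_ _)
    calc ∑ k : Fin (U.size n + 1), W.len k ≤ ∑ _k : Fin (U.size n + 1), M n :=
          Finset.sum_le_sum (fun k _ => hM n k (by have := k.2; omega))
      _ = (U.size n + 1) * M n := by simp
  choose D hD using hD
  refine ⟨⟨fun n => U.len n + (U.size n + 1) * M n, fun n => U.cost n * (r n + 1),
    fun n x y z => sim W (D n y).2 (D n z).2 (U.alg n x (D n y).1 (D n z).1),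
    fun n x y z => sim_cost (hr n) _ _ _ _ (U.alg_cost n _ _ _)⟩, fun _ => rfl, fun _ => rfl, ?_⟩
  intro O B n S hB
  have hB' : ∀ k : Fin (U.size n + 1), ∃ a, Forces (W.value O k) (B k) a :=
    fun k => hB k (by have := k.2; omega)
  choose a ha using hB'
  have henc : ∀ y : Str (U.len n), ∃ y', D n y' = (y, a) := fun y => hD n (y, a)
  choose enc henc using henc
  have hl : ∀ x y z, (sim W (D n (enc y)).2 (D n z).2 (U.alg n x (D n (enc y)).1 (D n z).1)).run
      (fun q => O q.1 q.2) = U.value O B n x y (D n z).1 := by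
    intro x y z
    rw [henc]
    exact sim_run (fun k q => (ha k q).1 _) _
  have hrr : ∀ x y z, (sim W (D n y).2 (D n (enc z)).2 (U.alg n x (D n y).1 (D n (enc z)).1)).run
      (fun q => O q.1 q.2) = U.value O B n x (D n y).1 z := by
    intro x y z
    rw [henc]
    exact sim_run (fun k q => (ha k q).2 _) _
  refine ⟨?_, ?_, ?_, ?_⟩
  · rintro ⟨z₀, h⟩
    refine ⟨enc z₀, fun x => ⟨fun hx => ?_, fun hx y => ?_⟩⟩
    · obtain ⟨y, hy⟩ := (h x).1 hx
      exact ⟨enc y, fun z => (hl x y z).trans (hy _)⟩
    · exact (hrr x y z₀).trans ((h x).2 hx _)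
  · rintro ⟨y₀, h⟩
    refine ⟨enc y₀, fun x => ⟨fun hx z => ?_, fun hx => ?_⟩⟩
    · exact (hl x y₀ z).trans ((h x).1 hx _)
    · obtain ⟨z, hz⟩ := (h x).2 hx
      exact ⟨enc z, fun y => (hrr x y z).trans (hz _)⟩
  · rintro ⟨y₀, z₀, h⟩
    exact ⟨enc y₀, enc z₀, fun x => ⟨fun hx z => (hl x y₀ z).trans ((h x).1 hx _),
      fun hx y => (hrr x y z₀).trans ((h x).2 hx _)⟩⟩
  · intro h x
    refine ⟨fun hx => ?_, fun hx => ?_⟩
    · obtain ⟨y, hy⟩ := (h x).1 hx
      exact ⟨enc y, fun z => (hl x y z).trans (hy _)⟩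
    · obtain ⟨z, hz⟩ := (h x).2 hx
      exact ⟨enc z, fun y => (hrr x y z).trans (hz _)⟩

end Pool.Agent.H.MP_7934a7_lc.h84.SC
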