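import Mathlib
import Pool.Agent.H.MP_7934a7_lc.h84.Small
import Pool.Agent.H.MP_7934a7_lc.h84.Diag

/-!
Polynomial bounds, and the two parts of the theorem in polynomial form.
-/

namespace Pool.Agent.H.MP_7934a7_lc.h84.SC

lemma PolyBdd.mono {f g : ℕ → ℕ} (hg : PolyBdd g) (h : ∀ n, f n ≤ g n) : PolyBdd f := by
  obtain ⟨d, hd⟩ := hg
  exact ⟨d, fun n => (h n).trans (hd n)⟩

lemma PolyBdd.add {f g : ℕ → ℕ} (hf : PolyBdd f) (hg : PolyBdd g) : PolyBdd (fun n => f n + g n) := by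
  obtain ⟨d, hd⟩ := hf
  obtain ⟨e, he⟩ := hg
  refine ⟨d + e + 1, fun n => ?_⟩
  have h1 : (n + 2) ^ d ≤ (n + 2) ^ (d + e) := Nat.pow_le_pow_right (by omega) (by omega)
  have h2 : (n + 2) ^ e ≤ (n + 2) ^ (d + e) := Nat.pow_le_pow_right (by omega) (by omega)
  have h3 : (n + 2) ^ (d + e + 1) = (n + 2) ^ (d + e) * (n + 2) := pow_succ _ _
  have h4 : (n + 2) ^ (d + e) * 2 ≤ (n + 2) ^ (d + e) * (n + 2) :=
    Nat.mul_le_mul_left _ (by omega)
  have := hd n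
  have := he n
  show f n + g n ≤ (n + 2) ^ (d + e + 1)
  omega

lemma PolyBdd.mul {f g : ℕ → ℕ} (hf : PolyBdd f) (hg : PolyBdd g) : PolyBdd (fun n => f n * g n) := by
  obtain ⟨d, hd⟩ := hf
  obtain ⟨e, he⟩ := hg
  refine ⟨d + e, fun n => ?_⟩
  show f n * g n ≤ (n + 2) ^ (d + e)
  rw [pow_add]
  exact Nat.mul_le_mul (hd n) (he n)

lemma PolyBdd.const (c : ℕ) : PolyBdd (fun _ => c) := by
  refine ⟨c, fun n => ?_⟩
  calc c ≤ 2 ^ c := Nat.lt_two_pow_self.le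
    _ ≤ (n + 2) ^ c := Nat.pow_le_pow_left (by omega) _

lemma PolyBdd.id : PolyBdd (fun n => n) := ⟨1, fun n => by simp⟩

/-- a polynomial bound for the values up to `p n` -/
lemma PolyBdd.sup {f p : ℕ → ℕ} (hf : PolyBdd f) (hp : PolyBdd p) :
    ∃ M, PolyBdd M ∧ ∀ n, ∀ k ≤ p n, f k ≤ M n := by
  obtain ⟨d, hd⟩ := hf
  obtain ⟨e, he⟩ := hp
  refine ⟨fun n => ((n + 2) ^ e + 2) ^ d, ⟨(e + 2) * d, fun n => ?_⟩, fun n k hk => ?_⟩
  · show ((n + 2) ^ e + 2) ^ d ≤ (n + 2) ^ ((e + 2) * d)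
    rw [pow_mul]
    refine Nat.pow_le_pow_left ?_ _
    have h1 : 1 ≤ (n + 2) ^ e := Nat.one_le_pow _ _ (by omega)
    have h2 : 2 ^ 2 ≤ (n + 2) ^ 2 := Nat.pow_le_pow_left (by omega) 2
    have h3 : (n + 2) ^ e * 2 ^ 2 ≤ (n + 2) ^ e * (n + 2) ^ 2 := Nat.mul_le_mul_left _ h2
    rw [pow_add]
    omega
  · exact (hd k).trans (Nat.pow_le_pow_left (by have := he n; omega) _)

lemma exists_pow_lt (e : ℕ) : ∃ N, ∀ k ≥ N, (k + 2) ^ e < 2 ^ k := by
  have h := tendsto_pow_const_div_const_pow_of_one_lt (e + 2) (show (1 : ℝ) < 2 by norm_num)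
  have h1 := (h.eventually (gt_mem_nhds (show (0 : ℝ) < 1 by norm_num)))
  obtain ⟨N, hN⟩ := Filter.eventually_atTop.mp h1
  refine ⟨N, fun k hk => ?_⟩
  have h2 := hN (k + 2) (by omega)
  rw [div_lt_one (by positivity)] at h2
  have h3 : (k + 2) ^ (e + 2) < 2 ^ (k + 2) := by exact_mod_cast h2
  have h4 : (k + 2) ^ (e + 2) = (k + 2) ^ e * (k + 2) ^ 2 := pow_add _ _ _
  have h5 : 4 ≤ (k + 2) ^ 2 := Nat.pow_le_pow_left (show 2 ≤ k + 2 by omega) 2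
  have h6 : (k + 2) ^ e * 4 ≤ (k + 2) ^ e * (k + 2) ^ 2 := Nat.mul_le_mul_left _ h5
  have h7 : 2 ^ (k + 2) = 2 ^ k * 4 := by ring
  omega

lemma exists_large {H : Family} (hH : ¬ Small H) (d N : ℕ) :
    ∃ k ≥ N, 2 ^ ((k + 2) ^ d) < (H k).card := by
  by_contra hcon
  push Not at hcon
  refine hH ⟨fun k => (k + 2) ^ (d + N), ⟨d + N, fun _ => le_rfl⟩, fun k => ?_⟩
  rcases le_or_gt N k with h | h
  · exact (hcon k h).trans (Nat.pow_le_pow_right (by norm_num)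
      (Nat.pow_le_pow_right (by omega) (by omega)))
  · have h1 : (H k).card ≤ 2 ^ (2 ^ k) := by
      have h2 := Finset.card_le_univ (H k)
      have h3 : Fintype.card (Str k → Bool) = 2 ^ (2 ^ k) := by
        simp only [Fintype.card_fun, Fintype.card_fin, Fintype.card_bool]
      rw [h3] at h2
      exact h2
    refine h1.trans (Nat.pow_le_pow_right (by norm_num) ?_)
    calc 2 ^ k ≤ 2 ^ (d + N) := Nat.pow_le_pow_right (by norm_num) (by omega)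
      _ ≤ (k + 2) ^ (d + N) := Nat.pow_le_pow_left (by omega) _

/-- **Part 1.** -/
theorem part_one (H : Family) (hne : ∀ k, (H k).Nonempty) (hH : Small H) (V₁ V₂ : Verifier)
    (h₁ : V₁.Poly) (h₂ : V₂.Poly) :
    ∃ W : Verifier, W.Poly ∧
      (∀ (O B : Lang) (k : ℕ), B k ∈ H k → NO2 (V₁.value O k) (B k) → YO2 (V₂.value O k) (B k) →
        ∃ a, Forces (W.value O k) (B k) a) ∧
      ∀ U : Verifier₂, U.Poly → ∃ V : Verifier, V.Poly ∧ ∀ (O B : Lang) (n : ℕ),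
        (∀ k ≤ U.size n, B k ∈ H k ∧ NO2 (V₁.value O k) (B k) ∧ YO2 (V₂.value O k) (B k)) →
          ∀ S : Str n → Bool,
            (NO2 (U.value O B n) S → NO2 (V.value O n) S) ∧
            (YO2 (U.value O B n) S → YO2 (V.value O n) S) ∧
            (O2 (U.value O B n) S → O2 (V.value O n) S) ∧
            (S2 (U.value O B n) S → S2 (V.value O n) S) := by
  obtain ⟨s, hs, hs'⟩ := hH
  obtain ⟨W, hW1, hW2, hW3⟩ := small H hne s hs' V₁ V₂
  have hp1 : PolyBdd W.len := by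
    have h3 : PolyBdd (fun k => s k + (s k + 2) * (V₁.len k + V₂.len k)) :=
      hs.add ((hs.add (PolyBdd.const 2)).mul (h₁.1.add h₂.1))
    exact h3.mono (fun k => (hW1 k).le)
  have hp2 : PolyBdd W.cost := by
    refine (h₁.2.add h₂.2).mono (fun k => ?_)
    rw [hW2 k]
    exact max_le (Nat.le_add_right _ _) (Nat.le_add_left _ _)
  refine ⟨W, ⟨hp1, hp2⟩, hW3, fun U hU => ?_⟩
  obtain ⟨M, hM, hM'⟩ := hp1.sup hU.2.2
  obtain ⟨r, hr, hr'⟩ := hp2.sup hU.2.2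
  obtain ⟨V, hV1, hV2, hV3⟩ := simulate W U M r hM' hr'
  refine ⟨V, ⟨?_, ?_⟩, fun O B n hB S => hV3 O B n S (fun k hk => hW3 O B k (hB k hk).1
    (hB k hk).2.1 (hB k hk).2.2)⟩
  · have h3 : PolyBdd (fun n => U.len n + (U.size n + 1) * M n) :=
      hU.1.add ((hU.2.2.add (PolyBdd.const 1)).mul hM)
    exact h3.mono (fun n => (hV1 n).le)
  · have h3 : PolyBdd (fun n => U.cost n * (r n + 1)) := hU.2.1.mul (hr.add (PolyBdd.const 1))
    exact h3.mono (fun n => (hV2 n).le)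

/-- **Part 2.** -/
theorem part_two (H : Family) (hne : ∀ k, (H k).Nonempty) (hH : ¬ Small H) (V : ℕ → Verifier)
    (hV : ∀ i, (V i).Poly) :
    ∃ O B : Lang, (∀ k, B k ∈ H k) ∧ Certified O B ∧
      ∀ i N, ∃ k ≥ N, ¬ O2 ((V i).value O k) (B k) := by
  refine diagonal V (fun k b => b ∈ H k) (fun i k v b => ¬ O2 v b) (fun k => hne k) ?_
  intro i N O₀ B₀ hC hP
  obtain ⟨e, he⟩ := (hV i).1
  obtain ⟨e', he'⟩ := (hV i).2
  obtain ⟨N', hN'⟩ := exists_pow_lt e'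
  obtain ⟨k, hk, hlarge⟩ := exists_large hH (e + 4) (N + N' + 1)
  have h1 : 2 ^ ((2 * k + 2) * (2 * (V i).len k + 1)) < (H k).card := by
    refine lt_of_le_of_lt (Nat.pow_le_pow_right (by norm_num) ?_) hlarge
    have h3 := he k
    have h4 : 1 ≤ (k + 2) ^ e := Nat.one_le_pow _ _ (by omega)
    have h5 : (k + 2) ^ (e + 4) = (k + 2) ^ 2 * ((k + 2) ^ e * (k + 2) ^ 2) := by ring
    rw [h5]
    refine Nat.mul_le_mul ?_ ?_
    · nlinarith
    · have h6 : 4 ≤ (k + 2) ^ 2 := Nat.pow_le_pow_left (show 2 ≤ k + 2 by omega) 2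
      have h7 : (k + 2) ^ e * 4 ≤ (k + 2) ^ e * (k + 2) ^ 2 := Nat.mul_le_mul_left _ h6
      omega
  have h2 : (V i).cost k < 2 ^ k := lt_of_le_of_lt (he' k) (hN' k (by omega))
  obtain ⟨O, B, g1, g2, g3, g4, g5⟩ := stage_O2 (V i) O₀ B₀ hC k (by omega) (H k) h1 h2
  exact ⟨k, by omega, O, B, g1, g2, g3, g4, g5⟩

end Pool.Agent.H.MP_7934a7_lc.h84.SC
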