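import Mathlib
import Pool.Agent.H.MP_7934a7_lc.h84.PolyB
import Pool.Agent.H.MP_7934a7_lc.h89.Sep
import Pool.Agent.H.MP_7934a7_lc.h89.Split

/-!
Sets `S` that are not sparse have subsets that are not low (from the separation for one length of
`MP_7934a7_lc.OneQuestion`).
-/

namespace Pool.Agent.H.MP_7934a7_lc.h84.SC

open Pool.Agent.H.MP_7934a7_lc.h89

section stage

variable {k a : ℕ}

/-- padding of witnesses -/
def pad (k a : ℕ) (w : OneQ.Wit a) : Str (4 * k) := fun i =>
  if h : (i : ℕ) < 2 * a then w ⟨i, h⟩ else false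

lemma pad_injective (h : a ≤ k) : Function.Injective (pad k a) := by
  intro w w' he
  funext i
  have h1 := congrFun he ⟨i, by have := i.2; omega⟩
  simpa [pad] using h1

/-- the first bits of a string -/
def take {k : ℕ} (m : ℕ) (y : Str k) : Fin m → Bool := fun i =>
  if h : (i : ℕ) < k then y ⟨i, h⟩ else false

lemma take_surjective {k m : ℕ} (h : m ≤ k) (u : Fin m → Bool) :
    ∃ y : Str k, take m y = u := by
  refine ⟨fun i => if h : (i : ℕ) < m then u ⟨i, h⟩ else false, ?_⟩
  funext i
  have h1 : (i : ℕ) < k := by have := i.2; omega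
  simp [take, h1]

open Classical in
/-- translation of the algorithms -/
noncomputable def tr (O₀ : Lang) (k a : ℕ) (emb : OneQ.Ins a × OneQ.Pos a → Str k) :
    Alg Word → OneQ.Alg
  | .out b => .out b
  | .ask q next =>
    match tri k q with
    | none => tr O₀ k a emb (next (O₀ q.1 q.2))
    | some (x, w, b) =>
      if h : ∃ p, emb p = x then
        if h' : ∃ w', pad k a w' = w then
          .look a h.choose.1 h.choose.2 h'.choose
            (fun r => tr O₀ k a emb (next (decide (r = some b))))
        else tr O₀ k a emb (next false)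
      else tr O₀ k a emb (next (decide (w = (fun _ => false) ∧ b = false)))

lemma tr_cost (O₀ : Lang) (emb : OneQ.Ins a × OneQ.Pos a → Str k) (A : Alg Word) :
    ∀ c, A.AtMost c → (tr O₀ k a emb A).AtMost c := by
  classical
  induction A with
  | out b => intro c _; simp [tr, OneQ.Alg.AtMost]
  | ask q next ih =>
    intro c hc
    cases c with
    | zero => exact absurd hc (by simp [Alg.AtMost])
    | succ c =>
      have hc' : ∀ a, (next a).AtMost c := hc
      have h1 : ∀ b, (tr O₀ k a emb (next b)).AtMost (c + 1) := fun b =>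
        OneQ.Alg.atMost_mono _ c _ (by omega) (ih b c (hc' b))
      unfold tr
      rcases tri k q with _ | ⟨x, w, b⟩
      · exact h1 _
      · simp only
        split_ifs
        · exact fun r => ih _ c (hc' _)
        · exact h1 _
        · exact h1 _

/-- the certificates that come from the small world -/
noncomputable def bigW (k a : ℕ) (emb : OneQ.Ins a × OneQ.Pos a → Str k)
    (ω : OneQ.Ins a × OneQ.Pos a → OneQ.Wit a) (x : Str k) : Str (4 * k) := by
  classical
  exact if h : ∃ p, emb p = x then pad k a (ω h.choose) else fun _ => false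

/-- the values that come from the small world -/
noncomputable def bigV (k a : ℕ) (emb : OneQ.Ins a × OneQ.Pos a → Str k)
    (val : OneQ.Ins a × OneQ.Pos a → Bool) (x : Str k) : Bool := by
  classical
  exact if h : ∃ p, emb p = x then val h.choose else false

lemma tr_run {O₀ : Lang} {emb : OneQ.Ins a × OneQ.Pos a → Str k} (hak : a ≤ k)
    {ω : OneQ.Ins a × OneQ.Pos a → OneQ.Wit a} {val : OneQ.Ins a × OneQ.Pos a → Bool}
    {G : OneQ.World}
    (hG : ∀ p w b, G a p.1 p.2 w = some b ↔ w = ω p ∧ b = val p) (A : Alg Word) :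
    (tr O₀ k a emb A).run G = A.run (ans (tri k) (fun q : Word => O₀ q.1 q.2)
      (full (bigW k a emb ω) (bigV k a emb val))) := by
  classical
  induction A with
  | out b => rfl
  | ask q next ih =>
    rcases htri : tri k q with _ | ⟨x, w, b⟩
    · have e : tr O₀ k a emb (.ask q next) = tr O₀ k a emb (next (O₀ q.1 q.2)) := by
        simp only [tr, htri]
      rw [e, ih]
      simp only [Alg.run]
      rw [ans_none htri]
    · have hans := ans_known (base := fun q : Word => O₀ q.1 q.2) htri
        (show full (bigW k a emb ω) (bigV k a emb val) x =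
          some (bigW k a emb ω x, bigV k a emb val x) from rfl)
      simp only [Alg.run]
      rw [hans]
      by_cases hx : ∃ p, emb p = x
      · by_cases hw : ∃ w', pad k a w' = w
        · have e : tr O₀ k a emb (.ask q next) = .look a hx.choose.1 hx.choose.2 hw.choose
              (fun r => tr O₀ k a emb (next (decide (r = some b)))) := by
            simp only [tr, htri, dif_pos hx, dif_pos hw]
          rw [e]
          simp only [OneQ.Alg.run]
          rw [ih]
          have e2 : decide (G a hx.choose.1 hx.choose.2 hw.choose = some b) =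
              decide (w = bigW k a emb ω x ∧ b = bigV k a emb val x) := by
            apply decide_eq_decide.mpr
            rw [hG]
            simp only [bigW, bigV, dif_pos hx]
            constructor
            · rintro ⟨h1, h2⟩
              exact ⟨by rw [← h1, hw.choose_spec], h2⟩
            · rintro ⟨h1, h2⟩
              refine ⟨pad_injective hak ?_, h2⟩
              rw [hw.choose_spec, h1]
          rw [e2]
        · have e : tr O₀ k a emb (.ask q next) = tr O₀ k a emb (next false) := by
            simp only [tr, htri, dif_pos hx, dif_neg hw]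
          rw [e, ih]
          have e2 : decide (w = bigW k a emb ω x ∧ b = bigV k a emb val x) = false := by
            rw [decide_eq_false_iff_not]
            rintro ⟨h1, -⟩
            simp only [bigW, dif_pos hx] at h1
            exact hw ⟨_, h1.symm⟩
          rw [e2]
      · have e : tr O₀ k a emb (.ask q next) =
            tr O₀ k a emb (next (decide (w = (fun _ => false) ∧ b = false))) := by
          simp only [tr, htri, dif_neg hx]
        rw [e, ih]
        simp only [bigW, bigV, dif_neg hx]

end stage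

/-! ### The embedding -/

/-- the size parameter at length `k` -/
def rad (S : (k : ℕ) → Finset (Str k)) (k : ℕ) : ℕ := Nat.log 2 (S k).card / 3

lemma rad_le (S : (k : ℕ) → Finset (Str k)) (k : ℕ) : 3 * rad S k ≤ k := by
  have h1 : (S k).card ≤ 2 ^ k := by
    have h := Finset.card_le_univ (S k)
    simpa using h
  have h2 : Nat.log 2 (S k).card ≤ k := by
    calc Nat.log 2 (S k).card ≤ Nat.log 2 (2 ^ k) := Nat.log_mono_right h1
      _ = k := Nat.log_pow (by norm_num) _
  unfold rad
  omega

lemma exists_emb (S : (k : ℕ) → Finset (Str k)) (k : ℕ) :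
    ∃ emb : OneQ.Ins (rad S k) × OneQ.Pos (rad S k) → Str k, (S k).Nonempty →
      Function.Injective emb ∧ ∀ p, emb p ∈ S k := by
  classical
  by_cases hne : (S k).Nonempty
  · have hcard : Fintype.card (OneQ.Ins (rad S k) × OneQ.Pos (rad S k)) ≤
        Fintype.card {x // x ∈ S k} := by
      simp only [Fintype.card_prod, Fintype.card_fun, Fintype.card_fin, Fintype.card_bool,
        Fintype.card_coe]
      rw [← pow_add]
      have h1 : 2 ^ Nat.log 2 (S k).card ≤ (S k).card :=
        Nat.pow_log_le_self 2 (Finset.card_pos.mpr hne).ne'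
      refine le_trans (Nat.pow_le_pow_right (by norm_num) ?_) h1
      unfold rad
      omega
    obtain ⟨g⟩ := Function.Embedding.nonempty_of_card_le hcard
    exact ⟨fun p => (g p).1, fun _ => ⟨fun p q h => g.injective (Subtype.ext h),
      fun p => (g p).2⟩⟩
  · exact ⟨fun _ _ => false, fun h => absurd h hne⟩

/-- the question asked by the two provers -/
noncomputable def pos2 (S : (k : ℕ) → Finset (Str k)) (k : ℕ) (y z : Str k) : Str k :=
  (exists_emb S k).choose (take _ y, take _ z)

/-- the verifier that asks one question to `B` -/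
noncomputable def askOne (S : (k : ℕ) → Finset (Str k)) : Verifier₂ where
  len := fun k => k
  cost := fun _ => 1
  size := fun k => k
  alg := fun k _ y z => .ask (.inr ⟨⟨k, Nat.lt_succ_self k⟩, pos2 S k y z⟩) .out
  alg_cost := fun _ _ _ _ => by simp [Alg.AtMost]

lemma askOne_value (S : (k : ℕ) → Finset (Str k)) (O B : Lang) (k : ℕ) (x y z : Str k) :
    (askOne S).value O B k x y z = B k (pos2 S k y z) := rfl

open Classical in
/-- the tally set: prover 1 can force the answer yes -/
noncomputable def tally (S : (k : ℕ) → Finset (Str k)) (k : ℕ) (b : Str k → Bool) : Bool :=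
  decide (∃ y, ∀ z, b (pos2 S k y z) = true)

/-- the requirement on `b` at one length -/
def Req (S : (k : ℕ) → Finset (Str k)) (k : ℕ) (b : Str k → Bool) : Prop :=
  (∀ x ∉ S k, b x = false) ∧
    ((∃ y, ∀ z, b (pos2 S k y z) = true) ∨ (∃ z, ∀ y, b (pos2 S k y z) = false))

lemma bigV_emb {k a : ℕ} {emb : OneQ.Ins a × OneQ.Pos a → Str k} (hinj : Function.Injective emb)
    (val : OneQ.Ins a × OneQ.Pos a → Bool) (p : OneQ.Ins a × OneQ.Pos a) :
    bigV k a emb val (emb p) = val p := by
  classical
  have hx : ∃ q, emb q = emb p := ⟨p, rfl⟩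
  unfold bigV
  rw [dif_pos hx, hinj hx.choose_spec]

lemma bigV_of_not {k a : ℕ} {emb : OneQ.Ins a × OneQ.Pos a → Str k}
    (val : OneQ.Ins a × OneQ.Pos a → Bool) {x : Str k} (hx : ¬ ∃ p, emb p = x) :
    bigV k a emb val x = false := by
  classical
  unfold bigV
  rw [dif_neg hx]

/-- **One length.** -/
lemma stage_low {k a : ℕ} (emb : OneQ.Ins a × OneQ.Pos a → Str k) (hinj : Function.Injective emb)
    (hak3 : 3 * a ≤ k) (ha : 96 ≤ a) (V : Verifier) (O₀ B₀ : Lang) (hO : Certified O₀ B₀)
    (hV : V.len k + V.cost k ≤ 2 ^ (a / 8)) :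
    ∃ O B : Lang, Certified O B ∧ (∀ n, n ≠ k + 4 * k + 1 → O n = O₀ n) ∧
      (∀ n, n ≠ k → B n = B₀ n) ∧ (∀ x, (¬ ∃ p, emb p = x) → B k x = false) ∧
      ((∃ y : Str k, ∀ z : Str k, B k (emb (take _ y, take _ z)) = true) ∨
        (∃ z : Str k, ∀ y : Str k, B k (emb (take _ y, take _ z)) = false)) ∧
      ∀ t : Bool, (t = true ↔ ∃ y : Str k, ∀ z : Str k, B k (emb (take _ y, take _ z)) = true) →
        ¬ S2 (V.value O k) (fun _ => t) := by
  classical
  have hak : a ≤ k := by omega
  let V' : OneQ.Verifier := ⟨fun _ => V.len k, fun _ => V.cost k,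
    fun _ _ y z => tr O₀ k a emb (V.alg k (fun _ => true) y z),
    fun _ _ y z => tr_cost O₀ emb _ _ (V.alg_cost k _ y z)⟩
  obtain ⟨Ob, hOb, hPb⟩ := OneQ.exists_base
  obtain ⟨G, hval, hprom, hbad⟩ := OneQ.stage V' false Ob hOb hPb (n := a) ha hV
  obtain ⟨W, hW⟩ : ∃ W : OneQ.World, W = Function.update Ob a G := ⟨_, rfl⟩
  rw [← hW] at hval hprom hbad
  -- certificates and values of the small world
  have hex : ∀ p : OneQ.Ins a × OneQ.Pos a, ∃ w : OneQ.Wit a, ∃ b : Bool,
      ∀ w' b', W a p.1 p.2 w' = some b' ↔ w' = w ∧ b' = b := by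
    intro p
    obtain ⟨w, ⟨b, hb⟩, hu⟩ := hval a p.1 p.2
    refine ⟨w, b, fun w' b' => ⟨fun h => ?_, fun h => ?_⟩⟩
    · have h1 : w' = w := hu w' ⟨b', h⟩
      subst h1
      rw [hb] at h
      exact ⟨rfl, (Option.some.inj h).symm⟩
    · rw [h.1, h.2, hb]
  choose ω val hωv using hex
  have hHV : ∀ (y : OneQ.Ins a) (u : OneQ.Pos a) (b : Bool),
      OneQ.HasValue W a y u b ↔ val (y, u) = b := by
    intro y u b
    constructor
    · rintro ⟨w, hw⟩
      exact (((hωv (y, u) w b).mp hw).2).symm
    · intro h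
      exact ⟨ω (y, u), (hωv (y, u) _ _).mpr ⟨rfl, h.symm⟩⟩
  -- the tally set
  have htal : (∃ y : Str k, ∀ z : Str k, bigV k a emb val (emb (take _ y, take _ z)) = true) ↔
      OneQ.InT W a := by
    constructor
    · rintro ⟨y, hy⟩
      refine ⟨take _ y, fun u => ?_⟩
      obtain ⟨z, hz⟩ := take_surjective (k := k) (m := 2 * a) (by omega) u
      rw [hHV]
      have h1 := hy z
      rw [hz, bigV_emb hinj] at h1
      exact h1
    · rintro ⟨x, hx⟩
      obtain ⟨y, hy⟩ := take_surjective (k := k) (m := a) hak x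
      refine ⟨y, fun z => ?_⟩
      rw [hy, bigV_emb hinj]
      exact (hHV _ _ _).mp (hx _)
  let O : Lang := fun n v => ans (tri k) (fun q : Word => O₀ q.1 q.2)
    (full (bigW k a emb ω) (bigV k a emb val)) ⟨n, v⟩
  refine ⟨O, Function.update B₀ k (bigV k a emb val), ?_, ?_, ?_, ?_, ?_, ?_⟩
  · intro k' x
    by_cases hk' : k' = k
    · subst hk'
      refine ⟨bigW k' a emb ω x, fun w' b => ?_⟩
      have e : O (k' + 4 * k' + 1) (code x w' b) =
          decide (w' = bigW k' a emb ω x ∧ b = bigV k' a emb val x) :=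
        ans_known (tri_cword x w' b) (show full (bigW k' a emb ω) (bigV k' a emb val) x =
          some (bigW k' a emb ω x, bigV k' a emb val x) from rfl)
      rw [e, Function.update_self, decide_eq_true_iff]
    · obtain ⟨w₀, hw₀⟩ := hO k' x
      refine ⟨w₀, fun w' b => ?_⟩
      have e : O (k' + 4 * k' + 1) (code x w' b) = O₀ (k' + 4 * k' + 1) (code x w' b) :=
        ans_none (tri_none (by omega) _)
      rw [e, Function.update_of_ne hk']
      exact hw₀ w' b
  · intro n hn
    funext v
    exact ans_none (tri_none hn v)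
  · intro n hn
    exact Function.update_of_ne hn _ _
  · rw [Function.update_self]
    exact fun x hx => bigV_of_not val hx
  · rw [Function.update_self]
    by_cases hT : OneQ.InT W a
    · exact Or.inl (htal.mpr hT)
    · right
      obtain ⟨z₀, hz₀⟩ := (OneQ.askYZ hval hprom a).2 hT
      obtain ⟨z, hz⟩ := take_surjective (k := k) (m := 2 * a) (by omega) z₀
      refine ⟨z, fun y => ?_⟩
      rw [hz, bigV_emb hinj]
      exact (hHV _ _ _).mp (hz₀ _)
  · rw [Function.update_self]
    intro t ht hS2
    apply hbad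
    have hrun : ∀ y z, V'.value W a (fun _ => true) y z = V.value O k (fun _ => true) y z := by
      intro y z
      exact tr_run (O₀ := O₀) (emb := emb) hak hωv _
    show V'.S2 W a (OneQ.InT W a)
    constructor
    · intro hT
      obtain ⟨y, hy⟩ := (hS2 (fun _ => true)).1 (ht.mpr (htal.mpr hT))
      exact ⟨y, fun z => (hrun y z).trans (hy z)⟩
    · intro hT
      have h1 : t = false := by
        rw [Bool.eq_false_iff]
        exact fun h => hT (htal.mp (ht.mp h))
      obtain ⟨z, hz⟩ := (hS2 (fun _ => true)).2 h1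
      exact ⟨z, fun y => (hrun y z).trans (hz y)⟩

/-- **Part 3.** -/
theorem part_three (S : (k : ℕ) → Finset (Str k)) (hS : ¬ PolyBdd (fun k => (S k).card))
    (V : ℕ → Verifier) (hV : ∀ i, (V i).Poly) :
    ∃ O B : Lang, (∀ k, ∀ x ∉ S k, B k x = false) ∧ Certified O B ∧ ∃ T : ℕ → Bool,
      (∀ k, O2 ((askOne S).value O B k) (fun _ => T k)) ∧
      ∀ i N, ∃ k ≥ N, ¬ S2 ((V i).value O k) (fun _ => T k) := by
  classical
  have hlarge : ∀ d N, ∃ k ≥ N, (k + 2) ^ d < (S k).card := by
    intro d N
    by_contra hcon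
    push Not at hcon
    refine hS ⟨d + N, fun k => ?_⟩
    rcases le_or_gt N k with h | h
    · exact (hcon k h).trans (Nat.pow_le_pow_right (by omega) (by omega))
    · have h1 : (S k).card ≤ 2 ^ k := by
        have h := Finset.card_le_univ (S k)
        simpa using h
      calc (S k).card ≤ 2 ^ k := h1
        _ ≤ 2 ^ (d + N) := Nat.pow_le_pow_right (by norm_num) (by omega)
        _ ≤ (k + 2) ^ (d + N) := Nat.pow_le_pow_left (by omega) _
  obtain ⟨O, B, h1, h2, h3⟩ := diagonal V (Req S)
    (fun i k v b => ¬ S2 v (fun _ => tally S k b)) (fun k => ⟨fun _ => false,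
      fun _ _ => rfl, Or.inr ⟨fun _ => false, fun _ => rfl⟩⟩) (by
    intro i N O₀ B₀ hC hP
    obtain ⟨e₁, he₁⟩ := (hV i).1
    obtain ⟨e₂, he₂⟩ := (hV i).2
    obtain ⟨k, hk, hcard⟩ := hlarge (24 * (e₁ + e₂ + 2) + 300) (N + 1)
    have hne : (S k).Nonempty := Finset.card_pos.mp (by omega)
    have hlog : (S k).card < 2 ^ (3 * rad S k + 3) := by
      have h3 := Nat.lt_pow_succ_log_self (b := 2) (by norm_num) (S k).card
      refine lt_of_lt_of_le h3 (Nat.pow_le_pow_right (by norm_num) ?_)
      unfold rad
      omega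
    have hbig : (k + 2) ^ (24 * (e₁ + e₂ + 2) + 300) < 2 ^ (3 * rad S k + 3) :=
      lt_trans hcard hlog
    have ha : 96 ≤ rad S k := by
      have h4 : 2 ^ (24 * (e₁ + e₂ + 2) + 300) < 2 ^ (3 * rad S k + 3) :=
        lt_of_le_of_lt (Nat.pow_le_pow_left (by omega) _) hbig
      have h5 := (Nat.pow_lt_pow_iff_right (by norm_num : 1 < 2)).mp h4
      omega
    have hsmall : (V i).len k + (V i).cost k ≤ 2 ^ (rad S k / 8) := by
      by_contra hcon
      push Not at hcon
      have h5 : (V i).len k + (V i).cost k ≤ (k + 2) ^ (e₁ + e₂ + 1) := by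
        have g1 : (k + 2) ^ e₁ ≤ (k + 2) ^ (e₁ + e₂) :=
          Nat.pow_le_pow_right (by omega) (by omega)
        have g2 : (k + 2) ^ e₂ ≤ (k + 2) ^ (e₁ + e₂) :=
          Nat.pow_le_pow_right (by omega) (by omega)
        have g3 : (k + 2) ^ (e₁ + e₂ + 1) = (k + 2) ^ (e₁ + e₂) * (k + 2) := pow_succ _ _
        have g4 : (k + 2) ^ (e₁ + e₂) * 2 ≤ (k + 2) ^ (e₁ + e₂) * (k + 2) :=
          Nat.mul_le_mul_left _ (by omega)
        have g5 := he₁ k
        have g6 := he₂ k
        omega
      have h6 : 2 ^ (rad S k / 8) < (k + 2) ^ (e₁ + e₂ + 1) := lt_of_lt_of_le hcon h5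
      have h7 : 2 ^ (3 * rad S k + 3) ≤ (k + 2) ^ (24 * (e₁ + e₂ + 2) + 300) := by
        calc 2 ^ (3 * rad S k + 3) ≤ 2 ^ (24 * (rad S k / 8) + 24) :=
              Nat.pow_le_pow_right (by norm_num) (by omega)
          _ = (2 ^ (rad S k / 8)) ^ 24 * 2 ^ 24 := by rw [pow_add, ← pow_mul, mul_comm 24]
          _ ≤ ((k + 2) ^ (e₁ + e₂ + 1)) ^ 24 * (k + 2) ^ 24 :=
              Nat.mul_le_mul (Nat.pow_le_pow_left h6.le _) (Nat.pow_le_pow_left (by omega) _)
          _ = (k + 2) ^ (24 * (e₁ + e₂ + 2)) := by
              rw [← pow_mul, ← pow_add]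
              congr 1
              ring
          _ ≤ (k + 2) ^ (24 * (e₁ + e₂ + 2) + 300) :=
              Nat.pow_le_pow_right (by omega) (by omega)
      omega
    obtain ⟨hinj, hmem⟩ := (exists_emb S k).choose_spec hne
    obtain ⟨O, B, g1, g2, g3, g4, g5, g6⟩ := stage_low (exists_emb S k).choose hinj (rad_le S k)
      ha (V i) O₀ B₀ hC hsmall
    refine ⟨k, by omega, O, B, g1, g2, g3, ⟨fun x hx => g4 x ?_, g5⟩, g6 _ ?_⟩
    · rintro ⟨p, rfl⟩
      exact hx (hmem p)
    · unfold tally
      exact decide_eq_true_iff)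
  refine ⟨O, B, fun k => (h1 k).1, h2, fun k => tally S k (B k), fun k => ?_, h3⟩
  rcases (h1 k).2 with ⟨y, hy⟩ | ⟨z, hz⟩
  · have hT : tally S k (B k) = true := by
      unfold tally
      exact decide_eq_true ⟨y, hy⟩
    refine ⟨y, fun _ => false, fun x => ⟨fun _ z => ?_, fun h => ?_⟩⟩
    · exact hy z
    · exact absurd (hT.symm.trans h) (by simp)
  · have hT : tally S k (B k) = false := by
      unfold tally
      rw [decide_eq_false_iff_not]
      rintro ⟨y, hy⟩
      have h4 := hy z
      rw [hz y] at h4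
      exact absurd h4 (by simp)
    refine ⟨fun _ => false, z, fun x => ⟨fun h => ?_, fun _ y => hz y⟩⟩
    exact absurd (hT.symm.trans h) (by simp)

end Pool.Agent.H.MP_7934a7_lc.h84.SC
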